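import Mathlib

set_option autoImplicit false

/-! The groups of values of the forms `x ^ 2 - u y ^ 2` modulo squares. -/

namespace Pool.Agent.Helper58.BS

section

variable {E : Type} [Field E]

/-- the group of the square classes -/
def Sc (E : Type) [Field E] : Type := Eˣ ⧸ (powMonoidHom 2 : Eˣ →* Eˣ).range

noncomputable instance : CommGroup (Sc E) :=
  inferInstanceAs (CommGroup (Eˣ ⧸ (powMonoidHom 2 : Eˣ →* Eˣ).range))

/-- the class of a unit -/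
noncomputable def cl : Eˣ →* Sc E := QuotientGroup.mk' (powMonoidHom 2 : Eˣ →* Eˣ).range

lemma cl_surj (a : Sc E) : ∃ u : Eˣ, cl u = a := QuotientGroup.mk_surjective a

/-- a representative -/
noncomputable def rp (a : Sc E) : Eˣ := Classical.choose (cl_surj a)

lemma cl_rp (a : Sc E) : cl (rp a) = a := Classical.choose_spec (cl_surj a)

/-- the group of the nonzero values of `x ^ 2 - u y ^ 2` -/
def Nm (u : Eˣ) : Subgroup Eˣ where
  carrier := {v | ∃ x y : E, x ^ 2 - (u : E) * y ^ 2 = v}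
  one_mem' := ⟨1, 0, by simp⟩
  mul_mem' := by
    rintro v w ⟨x, y, hv⟩ ⟨x', y', hw⟩
    refine ⟨x * x' + u * y * y', x * y' + x' * y, ?_⟩
    rw [Units.val_mul, ← hv, ← hw]
    ring
  inv_mem' := by
    rintro v ⟨x, y, hv⟩
    have hv0 : (v : E) ≠ 0 := v.ne_zero
    refine ⟨x / v, y / v, ?_⟩
    rw [Units.val_inv_eq_inv_val]
    field_simp
    linear_combination hv

lemma mem_Nm {u v : Eˣ} : v ∈ Nm u ↔ ∃ x y : E, x ^ 2 - (u : E) * y ^ 2 = v := Iff.rfl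

lemma sq_mem (u c : Eˣ) : c ^ 2 ∈ Nm u := ⟨c, 0, by simp⟩

lemma cl_sq (c : Eˣ) : cl (c ^ 2) = 1 := by
  exact (QuotientGroup.eq_one_iff _).2 ⟨c, rfl⟩

lemma cl_eq {u v : Eˣ} : cl u = cl v ↔ ∃ c : Eˣ, v = u * c ^ 2 := by
  refine QuotientGroup.eq.trans ?_
  constructor
  · rintro ⟨c, hc⟩
    exact ⟨c, by rw [← mul_inv_cancel_left u v, ← hc]; rfl⟩
  · rintro ⟨c, rfl⟩
    exact ⟨c, by rw [inv_mul_cancel_left]; rfl⟩

lemma cl_one {u : Eˣ} : cl u = 1 ↔ ∃ c : Eˣ, u = c ^ 2 := by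
  have := cl_eq (u := (1 : Eˣ)) (v := u)
  rw [map_one, eq_comm] at this
  rw [this]
  simp only [one_mul]

lemma Nm_mul_sq (u c : Eˣ) : Nm (u * c ^ 2) = Nm u := by
  ext v
  rw [mem_Nm, mem_Nm]
  have hc : (c : E) ≠ 0 := c.ne_zero
  constructor
  · rintro ⟨x, y, h⟩
    refine ⟨x, c * y, ?_⟩
    rw [← h]
    push_cast
    ring
  · rintro ⟨x, y, h⟩
    refine ⟨x, y / c, ?_⟩
    rw [← h]
    push_cast
    field_simp

/-- the group of the classes of the values of `x ^ 2 - u y ^ 2` for `u` in the class `a` -/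
noncomputable def Nn (a : Sc E) : Subgroup (Sc E) := (Nm (rp a)).map cl

lemma mem_Nn {u v : Eˣ} : cl v ∈ Nn (cl u) ↔ ∃ x y : E, x ^ 2 - (u : E) * y ^ 2 = v := by
  have h1 : Nm (rp (cl u)) = Nm u := by
    obtain ⟨w, hw⟩ : ∃ w : Eˣ, w = rp (cl u) := ⟨_, rfl⟩
    have h2 : cl w = cl u := by rw [hw, cl_rp]
    obtain ⟨c, hc⟩ := cl_eq.1 h2
    rw [← hw, hc, Nm_mul_sq]
  rw [← mem_Nm]
  unfold Nn
  rw [h1]
  constructor
  · rintro ⟨w, hw, e⟩
    obtain ⟨c, rfl⟩ := cl_eq.1 e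
    exact mul_mem hw (sq_mem u c)
  · intro h
    exact ⟨v, h, rfl⟩

lemma nn_symm (h2 : (2 : E) ≠ 0) (a b : Sc E) (h : b ∈ Nn a) : a ∈ Nn b := by
  obtain ⟨u, rfl⟩ := cl_surj a
  obtain ⟨v, rfl⟩ := cl_surj b
  rw [mem_Nn] at h ⊢
  obtain ⟨x, y, h⟩ := h
  have hu : (u : E) ≠ 0 := u.ne_zero
  have hv : (v : E) ≠ 0 := v.ne_zero
  by_cases hy : y = 0
  · rw [hy] at h
    have hx : x ≠ 0 := by
      rintro rfl
      apply hv
      rw [← h]
      ring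
    refine ⟨(u + 1) / 2, (u - 1) / (2 * x), ?_⟩
    rw [← h]
    field_simp
    ring
  · refine ⟨x / y, 1 / y, ?_⟩
    rw [← h]
    field_simp
    ring

lemma nn_sum {u v : Eˣ} (h : (u : E) + v = 1) : cl v ∈ Nn (cl u) := by
  rw [mem_Nn]
  refine ⟨1, 1, ?_⟩
  linear_combination (-1) * h

end

end Pool.Agent.Helper58.BS
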