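import Mathlib
import Pool.Agent.Helper58.EU.Leaf

set_option autoImplicit false

/-! Systems of norm groups on a valued field of residue characteristic two. -/

namespace Pool.Agent.Helper58.BS

open Pool.Agent.Helper58.EB Pool.Agent.Helper58.ET

/-- a symmetric system of subgroups `N(a)` with `φ (1 - u) ∈ N(φ u)` on a field with a valuation
ring of residue characteristic two for which the elements `1 + y` with `v(y) < v(4)` are in the
kernel -/
structure Sy {F : Type} [Field F] {A : Type} [CommGroup A] (φ : Fˣ →* A) (N : A → Subgroup A)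
    (O : ValuationSubring F) : Prop where
  symm : ∀ a b : A, b ∈ N a → a ∈ N b
  sum : ∀ u v : Fˣ, (u : F) + v = 1 → φ v ∈ N (φ u)
  sq : ∀ c : Fˣ, φ (c ^ 2) = 1
  two : O.valuation (2 : F) < 1
  ne : (2 : F) ≠ 0
  one : ∀ y : F, O.valuation y < O.valuation (2 : F) ^ 2 → ∃ u : Fˣ, (u : F) = 1 + y ∧ φ u = 1

variable {F : Type} [Field F] {A : Type} [CommGroup A] {φ : Fˣ →* A} {N : A → Subgroup A}
  {O : ValuationSubring F}

lemma Sy.four (h : Sy φ N O) : ∃ f : Fˣ, (f : F) = 4 ∧ φ f = 1 := by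
  refine ⟨(Units.mk0 2 h.ne) ^ 2, ?_, h.sq _⟩
  rw [Units.val_pow_eq_pow_val, Units.val_mk0]
  norm_num

lemma v4 (O : ValuationSubring F) : O.valuation (4 : F) = O.valuation (2 : F) ^ 2 := by
  rw [← map_pow]
  norm_num

/-- the first step -/
lemma Sy.f2 (h : Sy φ N O) {z w G : Fˣ} {β : F} (hz : O.valuation (z : F) = 1)
    (hG : (G : F) = 1 + 4 * z) (hβ : O.valuation β < 1) (hw : (w : F) = 1 + β) :
    φ w ∈ N (φ G) := by
  obtain ⟨f, hf, hf1⟩ := h.four
  have h20 : 0 < O.valuation (2 : F) ^ 2 :=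
    pow_pos (zero_lt_iff.2 ((Valuation.ne_zero_iff _).2 h.ne)) 2
  obtain ⟨q, hq, hq1⟩ := h.one (-(4 * z * β)) (by
    rw [Valuation.map_neg, map_mul, map_mul, v4, hz, mul_one]
    exact mul_lt_of_lt_one_right h20 hβ)
  have h1 : φ (-(f * z) * w / q) ∈ N (φ (G / q)) := by
    apply h.sum
    have hq0 : (q : F) ≠ 0 := q.ne_zero
    rw [Units.val_div_eq_div_val, Units.val_div_eq_div_val, Units.val_mul, Units.val_neg,
      Units.val_mul, hf, hG, hw]
    field_simp
    rw [hq]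
    ring
  have h2 : φ (-(f * z)) ∈ N (φ G) := by
    apply h.sum
    rw [Units.val_neg, Units.val_mul, hf, hG]
    ring
  rw [map_div, map_div, hq1, div_one, div_one, map_mul] at h1
  exact (Subgroup.mul_mem_cancel_left _ h2).1 h1

lemma Sy.f2' (h : Sy φ N O) {z w G : Fˣ} (hz : O.valuation (z : F) = 1)
    (hG : (G : F) = 1 + 4 * z) (hw : O.valuation ((w : F) - 1) < 1) :
    φ w ∈ N (φ G) := h.f2 hz hG hw (by ring)

lemma Sy.neg1 (h : Sy φ N O) : O.valuation (((-1 : Fˣ) : F) - 1) < 1 := by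
  rw [Units.val_neg, Units.val_one, show (-1 : F) - 1 = -2 by ring, Valuation.map_neg]
  exact h.two

lemma Sy.G1 (h : Sy φ N O) {z : F} {G : Fˣ} (hz : O.valuation z ≤ 1)
    (hG : (G : F) = 1 + 4 * z) : O.valuation ((G : F) - 1) < 1 := by
  rw [hG, add_sub_cancel_left, map_mul, v4]
  exact mul_lt_one_of_nonneg_of_lt_one_left zero_le (pow_lt_one₀ zero_le h.two two_ne_zero) hz

/-- the symbol of `z` and `1 + 4 z` -/
lemma Sy.f2b (h : Sy φ N O) {z G : Fˣ} (hz : O.valuation (z : F) = 1)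
    (hG : (G : F) = 1 + 4 * z) : φ z ∈ N (φ G) := by
  obtain ⟨f, hf, hf1⟩ := h.four
  have h2 : φ (-(f * z)) ∈ N (φ G) := by
    apply h.sum
    rw [Units.val_neg, Units.val_mul, hf, hG]
    ring
  rw [EU.phi_neg', map_mul, hf1, one_mul] at h2
  exact (Subgroup.mul_mem_cancel_left _ (h.f2' hz hG h.neg1)).1 h2

lemma Sy.inv (h : Sy φ N O) (u : Fˣ) : (φ u)⁻¹ = φ u := by
  rw [inv_eq_iff_mul_eq_one, ← map_mul, ← pow_two, h.sq]

/-- the main step -/
lemma Sy.f3 (h : Sy φ N O) {z G t α : Fˣ} (hz : O.valuation (z : F) = 1)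
    (hG : (G : F) = 1 + 4 * z)
    (hα : O.valuation (2 : F) ^ 2 < O.valuation (α : F)) (ht : (t : F) = 1 + α)
    (hb : ∀ b : Fˣ, O.valuation ((b : F) - 1) < 1 → φ b ∈ N (φ t)) :
    φ α ∈ N (φ G) := by
  have hα0 : (α : F) ≠ 0 := α.ne_zero
  have hG0 : (G : F) ≠ 0 := G.ne_zero
  have hlt : O.valuation (-(4 * z / α) : F) < 1 := by
    rw [Valuation.map_neg, map_div₀, map_mul, v4, hz, mul_one, div_lt_one₀ (val_pos O α)]
    exact hα
  obtain ⟨w, hw, -⟩ := exists_unit_one_add O hlt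
  have hw1 : O.valuation ((w : F) - 1) < 1 := by
    rw [hw, add_sub_cancel_left]
    exact hlt
  have h1 : φ (-1 * α * w / G) ∈ N (φ (t / G)) := by
    apply h.sum
    rw [Units.val_div_eq_div_val, Units.val_div_eq_div_val, Units.val_mul, Units.val_mul,
      Units.val_neg, Units.val_one, hw, ht]
    field_simp
    rw [hG]
    ring
  have hone : ∀ b : Fˣ, O.valuation ((b : F) - 1) < 1 → φ b ∈ N (φ (t / G)) := by
    intro b hb1
    apply h.symm
    rw [map_div]
    exact div_mem (h.symm _ _ (hb b hb1)) (h.symm _ _ (h.f2' hz hG hb1))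
  have hGG := h.G1 (z := (z : F)) hz.le hG
  rw [map_div φ (-1 * α * w) G, map_mul φ (-1 * α) w, map_mul φ (-1) α] at h1
  have h2 := mul_mem h1 (hone G hGG)
  rw [div_mul_cancel] at h2
  have h3 := (Subgroup.mul_mem_cancel_right _ (hone w hw1)).1 h2
  have h4 := (Subgroup.mul_mem_cancel_left _ (hone (-1) h.neg1)).1 h3
  have h5 := h.symm _ _ h4
  have h6 : φ (-α) ∈ N (φ t) := by
    apply h.sum
    rw [ht, Units.val_neg]
    ring
  rw [EU.phi_neg'] at h6
  have h7 := h.symm _ _ ((Subgroup.mul_mem_cancel_left _ (hb (-1) h.neg1)).1 h6)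
  rw [map_div] at h5
  have h8 := div_mem h7 h5
  rw [div_div_cancel] at h8
  exact h.symm _ _ h8

/-- additivity -/
lemma Sy.add (h : Sy φ N O) {z z' : F} (hz : O.valuation z ≤ 1) (hz' : O.valuation z' ≤ 1)
    {G G' G'' : Fˣ} (hG : (G : F) = 1 + 4 * z) (hG' : (G' : F) = 1 + 4 * z')
    (hG'' : (G'' : F) = 1 + 4 * (z + z')) : φ G'' = φ G * φ G' := by
  have hv4 : O.valuation (2 : F) ^ 2 < 1 := pow_lt_one₀ zero_le h.two two_ne_zero
  have h20 : 0 < O.valuation (2 : F) ^ 2 :=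
    pow_pos (zero_lt_iff.2 ((Valuation.ne_zero_iff _).2 h.ne)) 2
  have hzz : O.valuation (z + z') ≤ 1 := Valuation.map_add_le _ hz hz'
  have hG1 : O.valuation (G'' : F) = 1 := by
    rw [hG'']
    apply val_one_add
    rw [map_mul, v4]
    exact mul_lt_one_of_nonneg_of_lt_one_left zero_le hv4 hzz
  obtain ⟨q, hq, hq1⟩ := h.one (16 * z * z' / G'') (by
    rw [map_div₀, hG1, div_one, map_mul, map_mul, show (16 : F) = 4 * 4 by norm_num, map_mul, v4]
    calc O.valuation (2 : F) ^ 2 * O.valuation (2 : F) ^ 2 * O.valuation z * O.valuation z'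
        ≤ O.valuation (2 : F) ^ 2 * O.valuation (2 : F) ^ 2 * 1 * 1 := by gcongr
      _ = O.valuation (2 : F) ^ 2 * O.valuation (2 : F) ^ 2 := by rw [mul_one, mul_one]
      _ < O.valuation (2 : F) ^ 2 := mul_lt_of_lt_one_right h20 hv4)
  have e : G * G' = G'' * q := by
    ext
    have hG0 : (G'' : F) ≠ 0 := G''.ne_zero
    rw [Units.val_mul, Units.val_mul, hq, mul_add, mul_div_cancel₀ _ hG0, hG, hG', hG'']
    ring
  rw [← map_mul, e, map_mul, hq1, mul_one]

/-- units for which the residue is a square -/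
lemma Sy.unit (h : Sy φ N O) (hpf : ∀ a : F, O.valuation a ≤ 1 → ∃ b : F, O.valuation b ≤ 1 ∧
    O.valuation (a - b ^ 2) < 1) {u : Fˣ} (hu : O.valuation (u : F) = 1) :
    ∃ w : Fˣ, O.valuation ((w : F) - 1) < 1 ∧ φ w = φ u ∧ ∃ s : Fˣ, u = w * s ^ 2 := by
  obtain ⟨b, hb, hb1⟩ := hpf u hu.le
  have hb2 : O.valuation (b ^ 2) = 1 := by
    have := Valuation.map_sub_eq_of_lt_left O.valuation (x := (u : F)) (y := (u : F) - b ^ 2)
      (by rw [hu]; exact hb1)
    rw [sub_sub_cancel, hu] at this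
    exact this
  have hb0 : b ≠ 0 := by
    rintro rfl
    rw [zero_pow two_ne_zero, map_zero] at hb2
    exact zero_ne_one hb2
  have e : u = u / (Units.mk0 b hb0) ^ 2 * (Units.mk0 b hb0) ^ 2 := by rw [div_mul_cancel]
  refine ⟨u / (Units.mk0 b hb0) ^ 2, ?_, ?_, Units.mk0 b hb0, e⟩
  · rw [Units.val_div_eq_div_val, Units.val_pow_eq_pow_val, Units.val_mk0,
      div_sub_one (pow_ne_zero _ hb0), map_div₀, hb2, div_one]
    exact hb1
  · rw [map_div, h.sq, div_one]

end Pool.Agent.Helper58.BS
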