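import Mathlib
import Pool.Agent.Helper58.BS.Nrm
import Pool.Agent.Helper58.BS.Sys

set_option autoImplicit false

/-! Norm groups of quadratic extensions of a local field of residue characteristic two. -/

namespace Pool.Agent.Helper58.BS

open Pool.Agent.Helper58.EB Pool.Agent.Helper58.ET

/-- the properties of the valuation ring of a local field of characteristic zero with residue
characteristic two -/
structure Lc {E : Type} [Field E] (O : ValuationSubring E) (ϖ x₀ : Eˣ) : Prop where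
  ne : (2 : E) ≠ 0
  two : O.valuation (2 : E) < 1
  pv : O.valuation (ϖ : E) < 1
  mx : ∀ x : E, O.valuation x < 1 → O.valuation x ≤ O.valuation (ϖ : E)
  arch : ∀ x : E, O.valuation x < 1 → ∀ y : Eˣ, ∃ j : ℕ,
    O.valuation x ^ j ≤ O.valuation (y : E)
  pf : ∀ a : E, O.valuation a ≤ 1 → ∃ b : E, O.valuation b ≤ 1 ∧ O.valuation (a - b ^ 2) < 1
  sq : ∀ y : E, O.valuation y < O.valuation (2 : E) ^ 2 → ∃ s : Eˣ, (s : E) ^ 2 = 1 + y
  x0 : O.valuation (x₀ : E) = 1
  gen : ∀ z : E, O.valuation z ≤ 1 → ∃ s : E, O.valuation s ≤ 1 ∧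
    (O.valuation (z - (s ^ 2 + s)) < 1 ∨ O.valuation (z - (x₀ + (s ^ 2 + s))) < 1)
  nr : ∀ s : E, O.valuation s ≤ 1 → O.valuation (s ^ 2 + s - x₀) = 1

section

variable {E : Type} [Field E] {O : ValuationSubring E} {ϖ x₀ : Eˣ}

lemma Lc.sy (h : Lc O ϖ x₀) : Sy (cl : Eˣ →* Sc E) Nn O where
  symm := nn_symm h.ne
  sum := fun _ _ huv => nn_sum huv
  sq := cl_sq
  two := h.two
  ne := h.ne
  one := by
    intro y hy
    obtain ⟨s, hs⟩ := h.sq y hy
    exact ⟨s ^ 2, by rw [Units.val_pow_eq_pow_val, hs], cl_sq s⟩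

lemma Lc.odd (h : Lc O ϖ x₀) (s : E) : O.valuation (ϖ : E) ≠ O.valuation s ^ 2 := by
  intro e
  have h1 : O.valuation s < 1 := by
    have := h.pv
    rw [e] at this
    exact (pow_lt_one_iff_of_nonneg zero_le two_ne_zero).1 this
  have h2 := h.mx s h1
  have h3 : O.valuation s ^ 2 ≤ O.valuation (ϖ : E) ^ 2 := pow_le_pow_left₀ zero_le h2 2
  rw [← e] at h3
  have h4 : O.valuation (ϖ : E) ^ 2 < O.valuation (ϖ : E) := by
    rw [pow_two]
    exact mul_lt_of_lt_one_right (val_pos O ϖ) h.pv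
  exact absurd h4 (not_lt.2 h3)

lemma Lc.par (h : Lc O ϖ x₀) (a : Eˣ) : ∃ s : Eˣ, O.valuation (a : E) = O.valuation (s : E) ^ 2 ∨
    O.valuation (a : E) = O.valuation (ϖ : E) * O.valuation (s : E) ^ 2 := by
  obtain ⟨n, hn⟩ := exists_zpow O h.arch h.pv h.mx a
  have h0 : O.valuation (ϖ : E) ≠ 0 := val_ne O ϖ
  rcases Int.even_or_odd' n with ⟨m, rfl | rfl⟩
  · refine ⟨ϖ ^ m, Or.inl ?_⟩
    rw [hn, Units.val_zpow_eq_zpow_val, map_zpow₀, ← zpow_natCast, ← zpow_mul, mul_comm]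
    norm_num
  · refine ⟨ϖ ^ m, Or.inr ?_⟩
    rw [hn, Units.val_zpow_eq_zpow_val, map_zpow₀, ← zpow_natCast, ← zpow_mul, zpow_add₀ h0,
      zpow_one, mul_comm, mul_comm 2 m]
    norm_num

variable {G : Eˣ}

/-- the norms of the unramified extension have even valuation -/
lemma Lc.even (h : Lc O ϖ x₀) (hG : (G : E) = 1 + 4 * x₀) {v : Eˣ} (hv : cl v ∈ Nn (cl G)) :
    ∃ s : Eˣ, O.valuation (v : E) = O.valuation (s : E) ^ 2 := by
  obtain ⟨x, y, e⟩ := mem_Nn.1 hv
  have h20 : 0 < O.valuation (2 : E) := zero_lt_iff.2 ((Valuation.ne_zero_iff _).2 h.ne)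
  by_cases hy : y = 0
  · have hx : x ≠ 0 := by
      rintro rfl
      apply v.ne_zero
      rw [← e, hy]
      ring
    refine ⟨Units.mk0 x hx, ?_⟩
    rw [← e, hy, Units.val_mk0, ← map_pow]
    congr 1
    ring
  obtain ⟨W, hW⟩ : ∃ W : E, x = y * (1 + W) := ⟨x / y - 1, by field_simp; ring⟩
  have e1 : (v : E) = y ^ 2 * (W ^ 2 + (2 * W - 4 * x₀)) := by
    rw [← e, hW, hG]
    ring
  by_cases hle : O.valuation W ≤ O.valuation (2 : E)
  · obtain ⟨σ, rfl⟩ : ∃ σ : E, W = 2 * σ := ⟨W / 2, by have := h.ne; field_simp⟩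
    have hσ : O.valuation σ ≤ 1 := by
      rw [map_mul] at hle
      exact (mul_le_iff_le_one_right h20).1 hle
    have hne : (2 : E) * y ≠ 0 := mul_ne_zero h.ne hy
    refine ⟨Units.mk0 _ hne, ?_⟩
    have e2 : (v : E) = (2 * y) ^ 2 * (σ ^ 2 + σ - x₀) := by
      rw [e1]
      ring
    rw [e2, map_mul, map_pow, h.nr σ hσ, mul_one, Units.val_mk0]
  · rw [not_le] at hle
    have hW0 : 0 < O.valuation W := h20.trans hle
    have hWne : W ≠ 0 := (Valuation.ne_zero_iff _).1 hW0.ne'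
    have h1 : O.valuation (2 * W - 4 * x₀) < O.valuation (W ^ 2) := by
      refine Valuation.map_sub_lt _ ?_ ?_
      · rw [map_mul, map_pow, pow_two]
        exact mul_lt_mul_of_pos_right hle hW0
      · rw [map_mul, h.x0, mul_one, v4, map_pow]
        exact pow_lt_pow_left₀ hle zero_le two_ne_zero
    have hne : y * W ≠ 0 := mul_ne_zero hy hWne
    refine ⟨Units.mk0 _ hne, ?_⟩
    rw [e1, map_mul, Valuation.map_add_eq_of_lt_left _ h1, Units.val_mk0, ← map_mul, ← map_pow,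
      mul_pow]

lemma Lc.unit_mem (h : Lc O ϖ x₀) (hG : (G : E) = 1 + 4 * x₀) {A : Type} [CommGroup A]
    {φ : Eˣ →* A} {N : A → Subgroup A} (hS : Sy φ N O) {u : Eˣ} (hu : O.valuation (u : E) = 1) :
    φ u ∈ N (φ G) := by
  obtain ⟨w, hw, hw1, -⟩ := hS.unit h.pf hu
  rw [← hw1]
  exact hS.f2' h.x0 hG hw

lemma Lc.even_mem (h : Lc O ϖ x₀) (hG : (G : E) = 1 + 4 * x₀) {A : Type} [CommGroup A]
    {φ : Eˣ →* A} {N : A → Subgroup A} (hS : Sy φ N O) {u s : Eˣ}
    (hu : O.valuation (u : E) = O.valuation (s : E) ^ 2) :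
    φ u ∈ N (φ G) := by
  have h1 := h.unit_mem hG hS (u := u / s ^ 2) (by
    rw [Units.val_div_eq_div_val, map_div₀, Units.val_pow_eq_pow_val, map_pow, hu, div_self]
    exact pow_ne_zero _ (val_ne O s))
  rwa [map_div, hS.sq, div_one] at h1

/-- improvement -/
lemma Lc.imp (h : Lc O ϖ x₀) {t s : Eˣ} {α : E} (ht : (t : E) = 1 + α) (hα : O.valuation α < 1)
    (hα2 : O.valuation (2 : E) ^ 2 < O.valuation α) (hs : O.valuation α = O.valuation (s : E) ^ 2) :
    ∃ (t' : Eˣ) (α' : E), (t' : E) = 1 + α' ∧ O.valuation α' < O.valuation α ∧ cl t' = cl t := by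
  have hs0 : (s : E) ≠ 0 := s.ne_zero
  have hsv := val_pos O s
  obtain ⟨b, hb, hb1⟩ := h.pf (α / s ^ 2) (by
    rw [map_div₀, map_pow, hs, div_self]
    exact pow_ne_zero _ hsv.ne')
  have hb2 : O.valuation (b ^ 2) = 1 := by
    have := Valuation.map_sub_eq_of_lt_left O.valuation (x := α / s ^ 2)
      (y := α / s ^ 2 - b ^ 2) (by
        rw [map_div₀, map_pow, hs, div_self (pow_ne_zero _ hsv.ne')]
        exact hb1)
    rw [sub_sub_cancel, map_div₀, map_pow O.valuation (s : E), hs,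
      div_self (pow_ne_zero _ hsv.ne')] at this
    exact this
  have hbv : O.valuation b = 1 := by
    rw [map_pow] at hb2
    exact (pow_eq_one_iff_of_nonneg zero_le two_ne_zero).1 hb2
  obtain ⟨r, hr⟩ : ∃ r : E, r = s * b := ⟨_, rfl⟩
  have hrv : O.valuation r = O.valuation (s : E) := by rw [hr, map_mul, hbv, mul_one]
  have h1 : O.valuation (α - r ^ 2) < O.valuation α := by
    have e : α - r ^ 2 = s ^ 2 * (α / s ^ 2 - b ^ 2) := by
      rw [hr]
      field_simp
    rw [e, map_mul, map_pow, ← hs]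
    exact mul_lt_of_lt_one_right ((pow_pos hsv 2).trans_le hs.ge) hb1
  have h2s : O.valuation (2 : E) < O.valuation (s : E) := by
    rw [hs] at hα2
    exact lt_of_pow_lt_pow_left₀ 2 zero_le hα2
  have h2 : O.valuation (2 * r) < O.valuation α := by
    rw [map_mul, hrv, hs, pow_two]
    exact mul_lt_mul_of_pos_right h2s hsv
  have hs1 : O.valuation (s : E) < 1 := by
    rw [hs] at hα
    exact (pow_lt_one_iff_of_nonneg zero_le two_ne_zero).1 hα
  obtain ⟨q, hq, hq1⟩ := exists_unit_one_add O (x := r) (by rw [hrv]; exact hs1)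
  have hq0 : (q : E) ≠ 0 := q.ne_zero
  refine ⟨t / q ^ 2, (α - r ^ 2 - 2 * r) / q ^ 2, ?_, ?_, ?_⟩
  · rw [Units.val_div_eq_div_val, Units.val_pow_eq_pow_val, ht]
    field_simp
    rw [hq]
    ring
  · rw [map_div₀, map_pow, hq1, one_pow, div_one]
    exact Valuation.map_sub_lt _ h1 h2
  · rw [map_div, cl_sq, div_one]

/-- descent -/
lemma Lc.desc (h : Lc O ϖ x₀) {b s : Eˣ} (hb : O.valuation (b : E) = O.valuation (s : E) ^ 2) :
    ∃ (t : Eˣ) (α : E), (t : E) = 1 + α ∧ O.valuation α < 1 ∧ cl t = cl b ∧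
      (O.valuation α ≤ O.valuation (2 : E) ^ 2 ∨
        O.valuation (2 : E) ^ 2 < O.valuation α ∧ ∀ s : Eˣ, O.valuation α ≠ O.valuation (s : E) ^ 2) := by
  obtain ⟨N, hN⟩ := h.arch _ h.pv (Units.mk0 _ (pow_ne_zero 2 h.ne))
  rw [Units.val_mk0, map_pow] at hN
  have key : ∀ m n : ℕ, n + m = N → ∀ (t : Eˣ) (α : E), (t : E) = 1 + α → O.valuation α < 1 →
      cl t = cl b → O.valuation α ≤ O.valuation (ϖ : E) ^ n →
      ∃ (t : Eˣ) (α : E), (t : E) = 1 + α ∧ O.valuation α < 1 ∧ cl t = cl b ∧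
      (O.valuation α ≤ O.valuation (2 : E) ^ 2 ∨
        O.valuation (2 : E) ^ 2 < O.valuation α ∧
          ∀ s : Eˣ, O.valuation α ≠ O.valuation (s : E) ^ 2) := by
    intro m
    induction m with
    | zero =>
      intro n hn t α ht hα htb hle
      rw [add_zero] at hn
      rw [hn] at hle
      exact ⟨t, α, ht, hα, htb, Or.inl (hle.trans hN)⟩
    | succ m ih =>
      intro n hn t α ht hα htb hle
      by_cases h1 : O.valuation α ≤ O.valuation (2 : E) ^ 2
      · exact ⟨t, α, ht, hα, htb, Or.inl h1⟩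
      rw [not_le] at h1
      by_cases h2 : ∃ s : Eˣ, O.valuation α = O.valuation (s : E) ^ 2
      · obtain ⟨s, hs⟩ := h2
        obtain ⟨t', α', ht', hlt, htt⟩ := h.imp ht hα h1 hs
        refine ih (n + 1) (by omega) t' α' ht' (hlt.trans hα) (htt.trans htb) ?_
        have hp := pow_pos (val_pos O ϖ) n
        have h3 := h.mx (α' / (ϖ : E) ^ n) (by
          rw [map_div₀, map_pow, div_lt_one₀ hp]
          exact hlt.trans_le hle)
        rw [map_div₀, map_pow, div_le_iff₀ hp] at h3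
        rw [pow_succ, mul_comm]
        exact h3
      · push Not at h2
        exact ⟨t, α, ht, hα, htb, Or.inr ⟨h1, h2⟩⟩
  obtain ⟨w, hw, hw1, -⟩ := h.sy.unit h.pf (u := b / s ^ 2) (by
    rw [Units.val_div_eq_div_val, map_div₀, Units.val_pow_eq_pow_val, map_pow, hb, div_self]
    exact pow_ne_zero _ (val_ne O s))
  refine key N 0 (zero_add N) w ((w : E) - 1) (by ring) hw ?_ ?_
  · rw [hw1, map_div, cl_sq, div_one]
  · rw [pow_zero]
    exact hw.le

/-- the classes of the elements close to one -/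
lemma Lc.gen4 (h : Lc O ϖ x₀) (hG : (G : E) = 1 + 4 * x₀) {z : E} (hz : O.valuation z ≤ 1)
    {t : Eˣ} (ht : (t : E) = 1 + 4 * z) : cl t = 1 ∨ cl t = cl G := by
  obtain ⟨s, hs, hsz⟩ := h.gen z hz
  have h20 : 0 < O.valuation (2 : E) ^ 2 :=
    pow_pos (zero_lt_iff.2 ((Valuation.ne_zero_iff _).2 h.ne)) 2
  have hv4 : O.valuation (2 : E) ^ 2 < 1 := pow_lt_one₀ zero_le h.two two_ne_zero
  obtain ⟨q, hq, hq1⟩ := exists_unit_one_add O (x := 2 * s) (by
    rw [map_mul]
    exact mul_lt_one_of_nonneg_of_lt_one_left zero_le h.two hs)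
  have hq0 : (q : E) ≠ 0 := q.ne_zero
  rcases hsz with h1 | h1
  · left
    obtain ⟨w, hw⟩ := h.sq (4 * (z - (s ^ 2 + s)) / q ^ 2) (by
      rw [map_div₀, map_pow, hq1, one_pow, div_one, map_mul, v4]
      exact mul_lt_of_lt_one_right h20 h1)
    have e : t = (q * w) ^ 2 := by
      ext
      rw [mul_pow, Units.val_mul, Units.val_pow_eq_pow_val, Units.val_pow_eq_pow_val, hw, ht]
      field_simp
      rw [hq]
      ring
    rw [e]
    exact cl_sq _
  · right
    have hGv : O.valuation (G : E) = 1 := by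
      rw [hG]
      apply val_one_add
      rw [map_mul, v4, h.x0, mul_one]
      exact hv4
    have hG0 : (G : E) ≠ 0 := G.ne_zero
    obtain ⟨w, hw⟩ := h.sq ((4 * (z - (x₀ + (s ^ 2 + s))) - 16 * x₀ * (s ^ 2 + s)) / (G * q ^ 2))
      (by
        rw [map_div₀, map_mul O.valuation (G : E), map_pow, hq1, hGv, one_pow, mul_one, div_one]
        refine Valuation.map_sub_lt _ ?_ ?_
        · rw [map_mul, v4]
          exact mul_lt_of_lt_one_right h20 h1
        · rw [map_mul, map_mul, h.x0, mul_one, show (16 : E) = 4 * 4 by norm_num, map_mul, v4]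
          have h3 : O.valuation (s ^ 2 + s) ≤ 1 := by
            refine Valuation.map_add_le _ ?_ hs
            rw [map_pow]
            exact pow_le_one₀ zero_le hs
          calc O.valuation (2 : E) ^ 2 * O.valuation (2 : E) ^ 2 * O.valuation (s ^ 2 + s)
              ≤ O.valuation (2 : E) ^ 2 * O.valuation (2 : E) ^ 2 * 1 := by gcongr
            _ = O.valuation (2 : E) ^ 2 * O.valuation (2 : E) ^ 2 := mul_one _
            _ < O.valuation (2 : E) ^ 2 := mul_lt_of_lt_one_right h20 hv4)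
    have e : t = G * (q * w) ^ 2 := by
      ext
      rw [mul_pow, Units.val_mul, Units.val_mul, Units.val_pow_eq_pow_val,
        Units.val_pow_eq_pow_val, hw, ht]
      field_simp
      rw [hq, hG]
      ring
    rw [e, map_mul, cl_sq, mul_one]

/-- the classes orthogonal to all one-units -/
lemma Lc.nd1 (h : Lc O ϖ x₀) (hG : (G : E) = 1 + 4 * x₀) {t : Eˣ}
    (hb : ∀ b : Eˣ, O.valuation ((b : E) - 1) < 1 → cl b ∈ Nn (cl t)) :
    cl t = 1 ∨ cl t = cl G := by
  have hS := h.sy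
  have hG1 := hS.G1 (z := (x₀ : E)) h.x0.le hG
  obtain ⟨s, hs⟩ := h.even hG (hS.symm _ _ (hb G hG1))
  obtain ⟨t', α, ht', hα, htt, hc⟩ := h.desc hs
  rw [← htt]
  rcases hc with hc | ⟨hc1, hc2⟩
  · have h4 : (4 : E) ≠ 0 := by
      have := pow_ne_zero 2 h.ne
      norm_num at this ⊢
      exact this
    refine h.gen4 hG (z := α / 4) ?_ (by rw [ht']; field_simp)
    rw [map_div₀, v4]
    exact div_le_one_of_le₀ hc zero_le
  · exfalso
    have hα0 : α ≠ 0 := by
      rintro rfl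
      rw [map_zero] at hc1
      exact absurd hc1 (not_lt.2 zero_le)
    have h1 := hS.f3 (α := Units.mk0 α hα0) h.x0 hG (by rw [Units.val_mk0]; exact hc1)
      (t := t') (by rw [Units.val_mk0]; exact ht') (fun b hb1 => by rw [htt]; exact hb b hb1)
    obtain ⟨s', hs'⟩ := h.even hG h1
    exact hc2 s' hs'

lemma Lc.ϖ_notMem (h : Lc O ϖ x₀) (hG : (G : E) = 1 + 4 * x₀) : cl ϖ ∉ Nn (cl G) := by
  intro h1
  obtain ⟨s, hs⟩ := h.even hG h1
  exact h.odd s hs

lemma Lc.G_ne (h : Lc O ϖ x₀) (hG : (G : E) = 1 + 4 * x₀) : cl G ≠ 1 := by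
  intro h1
  apply h.ϖ_notMem hG
  rw [h1]
  exact h.sy.symm _ _ (one_mem _)

/-- nondegeneracy -/
lemma Lc.nd (h : Lc O ϖ x₀) (hG : (G : E) = 1 + 4 * x₀) (a : Sc E) (ha : ∀ b, a ∈ Nn b) :
    a = 1 := by
  obtain ⟨t, rfl⟩ := cl_surj a
  rcases h.nd1 hG (t := t) fun b _ => h.sy.symm _ _ (ha (cl b)) with h1 | h1
  · exact h1
  · exfalso
    apply h.ϖ_notMem hG
    rw [← h1]
    exact h.sy.symm _ _ (ha (cl ϖ))

lemma split_symm {F : Type} [Field F] {A : Type} [CommGroup A] {φ : Fˣ →* A}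
    {N : A → Subgroup A} (hs : ∀ a b : A, b ∈ N a → a ∈ N b) {H K : Subgroup A}
    (h : EU.Split φ N H K) : EU.Split φ N K H where
  sup := by rw [sup_comm]; exact h.sup
  inf := by rw [inf_comm]; exact h.inf
  orth := fun k hk h' hh' => hs _ _ (h.orth h' hh' k hk)
  pr := by
    intro u v huv a ha b hb a' ha' b' hb' hu hv
    exact (h.pr u v huv b hb a ha b' hb' a' ha' (by rw [hu, mul_comm])
      (by rw [hv, mul_comm])).symm

lemma Lc.indec1 (h : Lc O ϖ x₀) (hG : (G : E) = 1 + 4 * x₀) {H K : Subgroup (Sc E)}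
    (hS : EU.Split cl Nn H K) (hGK : cl G ∉ K) : K = ⊥ := by
  obtain ⟨π, hπH, hπK, hπ⟩ := exists_proj hS.sup hS.inf
  have hsy : Sy (π.comp cl : Eˣ →* Sc E) Nn O :=
    { symm := h.sy.symm
      sum := by
        intro u v huv
        obtain ⟨hu1, k, hk, hu⟩ := hπ (cl u)
        obtain ⟨hv1, k', hk', hv⟩ := hπ (cl v)
        exact (hS.pr u v huv _ hu1 k hk _ hv1 k' hk' hu hv).1
      sq := fun c => by rw [MonoidHom.comp_apply, cl_sq, map_one]
      two := h.two
      ne := h.ne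
      one := by
        intro y hy
        obtain ⟨u, hu, hu1⟩ := h.sy.one y hy
        exact ⟨u, hu, by rw [MonoidHom.comp_apply, hu1, map_one]⟩ }
  obtain ⟨φ, hφ⟩ : ∃ φ : Eˣ →* Sc E, φ = π.comp cl := ⟨_, rfl⟩
  rw [← hφ] at hsy
  have hφ' : ∀ u, φ u = π (cl u) := fun u => by rw [hφ]; rfl
  -- elements of odd valuation
  have hodd : ∀ α : Eˣ, (∀ s : Eˣ, O.valuation (α : E) ≠ O.valuation (s : E) ^ 2) →
      φ α ∉ Nn (φ G) := by
    intro α hα hmem
    have hall : ∀ a : Eˣ, φ a ∈ Nn (φ G) := by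
      intro a
      obtain ⟨s, hs | hs⟩ := h.par a
      · exact h.even_mem hG hsy hs
      obtain ⟨s', hs' | hs'⟩ := h.par α
      · exact absurd hs' (hα s')
      have h1 := h.even_mem hG hsy (u := a * α) (s := ϖ * s * s') (by
        simp only [Units.val_mul, map_mul]
        rw [hs, hs']
        simp only [mul_pow, pow_two]
        ac_rfl)
      rw [map_mul] at h1
      exact (Subgroup.mul_mem_cancel_right _ hmem).1 h1
    apply hGK
    have hG1 : φ G = 1 := by
      apply h.nd hG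
      intro b
      apply h.sy.symm
      obtain ⟨w, rfl⟩ := cl_surj b
      obtain ⟨hw, k, hk, e⟩ := hπ (cl w)
      rw [e]
      refine mul_mem ?_ ?_
      · rw [← hφ']
        exact hall w
      · apply hS.orth _ _ k hk
        rw [hφ']
        exact (hπ _).1
    obtain ⟨-, k, hk, e⟩ := hπ (cl G)
    rw [← hφ', hG1, one_mul] at e
    rw [e]
    exact hk
  rw [eq_bot_iff]
  intro a ha
  rw [Subgroup.mem_bot]
  obtain ⟨t, rfl⟩ := cl_surj a
  have ht1 : φ t = 1 := by rw [hφ', hπK _ ha]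
  have hev : ∃ s : Eˣ, O.valuation (t : E) = O.valuation (s : E) ^ 2 := by
    by_contra hc
    push Not at hc
    apply hodd t hc
    rw [ht1]
    exact one_mem _
  obtain ⟨s, hs⟩ := hev
  obtain ⟨t', α, ht', hα, htt, hc⟩ := h.desc hs
  rcases hc with hc | ⟨hc1, hc2⟩
  · have h4 : (4 : E) ≠ 0 := by
      have := pow_ne_zero 2 h.ne
      norm_num at this ⊢
      exact this
    rcases h.gen4 hG (t := t') (z := α / 4) (by
      rw [map_div₀, v4]
      exact div_le_one_of_le₀ hc zero_le) (by rw [ht']; field_simp) with h1 | h1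
    · rw [← htt, h1]
    · exfalso
      apply hGK
      rw [← h1, htt]
      exact ha
  · exfalso
    have hα0 : α ≠ 0 := by
      rintro rfl
      rw [map_zero] at hc1
      exact absurd hc1 (not_lt.2 zero_le)
    have ht'1 : φ t' = 1 := by rw [hφ', htt, ← hφ', ht1]
    have h1 := hsy.f3 (α := Units.mk0 α hα0) h.x0 hG (by rw [Units.val_mk0]; exact hc1)
      (t := t') (by rw [Units.val_mk0]; exact ht') (fun b _ => by
        rw [ht'1]
        exact hsy.symm _ _ (one_mem _))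
    exact hodd _ hc2 h1

/-- the system is indecomposable -/
lemma Lc.indec (h : Lc O ϖ x₀) (hG : (G : E) = 1 + 4 * x₀) {H K : Subgroup (Sc E)}
    (hS : EU.Split cl Nn H K) : H = ⊥ ∨ K = ⊥ := by
  by_cases hGK : cl G ∈ K
  · left
    refine h.indec1 hG (split_symm h.sy.symm hS) fun hGH => h.G_ne hG ?_
    have : cl G ∈ H ⊓ K := ⟨hGH, hGK⟩
    rwa [hS.inf, Subgroup.mem_bot] at this
  · right
    exact h.indec1 hG hS hGK

end

end Pool.Agent.Helper58.BS
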