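import Mathlib
import Pool.Agent.Helper58.BS.Lc

set_option autoImplicit false

/-! Homomorphisms from the units of a field to the square classes of a local field. -/

namespace Pool.Agent.Helper58.BS

open Pool.Agent.Helper58.EB Pool.Agent.Helper58.ET

/-- a homomorphism to the square classes of `E` which extends the natural one and respects the
relations of degree two -/
structure Rl {E k F : Type} [Field E] [Field k] [Field F] (i : k →+* E) (j : k →+* F)
    (φ : Fˣ →* Sc E) : Prop where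
  cst : ∀ c : kˣ, φ (Units.map j c) = cl (Units.map i c)
  rel : ∀ f g : Fˣ, (f : F) + g = 1 → φ g ∈ Nn (φ f)

/-- density -/
def Dn {E k : Type} [Field E] [Field k] (O : ValuationSubring E) (i : k →+* E) : Prop :=
  ∀ (e : E) (d : Eˣ), ∃ c : k, O.valuation (i c - e) < O.valuation (d : E)

section

variable {E : Type} [Field E] {O : ValuationSubring E} {ϖ x₀ : Eˣ}

lemma Lc.close (h : Lc O ϖ x₀) {c e : Eˣ}
    (hce : O.valuation ((c : E) - e) < O.valuation (2 : E) ^ 2 * O.valuation (e : E)) :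
    cl c = cl e := by
  have he0 : (e : E) ≠ 0 := e.ne_zero
  obtain ⟨s, hs⟩ := h.sq (((c : E) - e) / e) (by
    rw [map_div₀, div_lt_iff₀ (val_pos O e)]
    exact hce)
  have e1 : c = e * s ^ 2 := by
    ext
    rw [Units.val_mul, Units.val_pow_eq_pow_val, hs]
    field_simp
    ring
  rw [e1, map_mul, cl_sq, mul_one]

lemma eq_of_close {v : Valuation E O.ValueGroup} {x y : E} (h : v (x - y) < v y) : v x = v y := by
  have := Valuation.map_add_eq_of_lt_left v (x := y) (y := x - y) h
  rwa [add_sub_cancel] at this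

variable {k : Type} [Field k] {i : k →+* E}

/-- approximation of a unit by constants -/
lemma Lc.apx (h : Lc O ϖ x₀) (hd : Dn O i) (e d : Eˣ) : ∃ c : kˣ,
    O.valuation (i c - e) < O.valuation (d : E) ∧ cl (Units.map i c) = cl e ∧
      O.valuation (i c) = O.valuation (e : E) := by
  have h2 : (2 : E) ≠ 0 := h.ne
  have h20 : 0 < O.valuation (2 : E) ^ 2 :=
    pow_pos (zero_lt_iff.2 ((Valuation.ne_zero_iff _).2 h.ne)) 2
  have hv4 : O.valuation (2 : E) ^ 2 < 1 := pow_lt_one₀ zero_le h.two two_ne_zero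
  have key : ∀ d' : Eˣ, O.valuation (d' : E) ≤ O.valuation (2 : E) ^ 2 * O.valuation (e : E) →
      ∃ c : kˣ, O.valuation (i c - e) < O.valuation (d' : E) ∧ cl (Units.map i c) = cl e ∧
      O.valuation (i c) = O.valuation (e : E) := by
    intro d' hd'
    obtain ⟨c, hc⟩ := hd (e : E) d'
    have h3 : O.valuation (i c - e) < O.valuation (e : E) := by
      refine (hc.trans_le hd').trans ?_
      exact mul_lt_of_lt_one_left (val_pos O e) hv4
    have h4 : O.valuation (i c) = O.valuation (e : E) := eq_of_close h3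
    have hc0 : c ≠ 0 := by
      rintro rfl
      rw [map_zero, map_zero] at h4
      exact val_ne O e h4.symm
    refine ⟨Units.mk0 c hc0, hc, h.close ?_, h4⟩
    exact hc.trans_le hd'
  rcases le_total (O.valuation (d : E)) (O.valuation (2 : E) ^ 2 * O.valuation (e : E)) with h1 | h1
  · exact key d h1
  · obtain ⟨c, hc1, hc2, hc3⟩ := key ((Units.mk0 2 h2) ^ 2 * e) (by
      rw [Units.val_mul, Units.val_pow_eq_pow_val, Units.val_mk0, map_mul, map_pow])
    refine ⟨c, hc1.trans_le ?_, hc2, hc3⟩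
    rw [Units.val_mul, Units.val_pow_eq_pow_val, Units.val_mk0, map_mul, map_pow]
    exact h1

variable {F : Type} [Field F] {j : k →+* F} {φ : Fˣ →* Sc E} {G : Eˣ}

lemma Rl.surj (h : Lc O ϖ x₀) (hd : Dn O i) (hr : Rl i j φ) : Function.Surjective φ := by
  intro a
  obtain ⟨e, rfl⟩ := cl_surj a
  obtain ⟨c, -, hc, -⟩ := h.apx hd e 1
  exact ⟨Units.map j c, by rw [hr.cst, hc]⟩

lemma Rl.nd (h : Lc O ϖ x₀) (hG : (G : E) = 1 + 4 * x₀) (hd : Dn O i) (hr : Rl i j φ) :
    EU.Nd φ Nn where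
  surj := hr.surj h hd
  symm := h.sy.symm
  sum := hr.rel
  nd := h.nd hG

lemma Rl.indec (h : Lc O ϖ x₀) (hG : (G : E) = 1 + 4 * x₀) (hd : Dn O i) (hr : Rl i j φ) :
    EU.Indec φ Nn := by
  intro H K hS
  refine h.indec hG (H := H) (K := K) ⟨hS.sup, hS.inf, hS.orth, ?_⟩
  intro u v huv a ha b hb a' ha' b' hb' hu hv
  -- approximation by constants
  obtain ⟨c, hc1, hc2, -⟩ := h.apx hd u ((Units.mk0 2 h.ne) ^ 2 * v)
  rw [Units.val_mul, Units.val_pow_eq_pow_val, Units.val_mk0, map_mul, map_pow] at hc1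
  have hv4 : O.valuation (2 : E) ^ 2 < 1 := pow_lt_one₀ zero_le h.two two_ne_zero
  have e1 : i (1 - c) - v = -(i c - u) := by
    rw [map_sub, map_one]
    linear_combination (-1) * huv
  have h3 : O.valuation (i (1 - c) - v) < O.valuation (2 : E) ^ 2 * O.valuation (v : E) := by
    rw [e1, Valuation.map_neg]
    exact hc1
  have h4 : O.valuation (i (1 - c)) = O.valuation (v : E) := by
    apply eq_of_close
    refine h3.trans ?_
    exact mul_lt_of_lt_one_left (val_pos O v) hv4
  have hc0 : (1 : k) - c ≠ 0 := by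
    intro e
    rw [e, map_zero, map_zero] at h4
    exact val_ne O v h4.symm
  obtain ⟨c', hc'⟩ : ∃ c' : kˣ, (c' : k) = 1 - c := ⟨Units.mk0 _ hc0, Units.val_mk0 _⟩
  have h5 : cl (Units.map i c') = cl v := by
    apply h.close
    rw [← hc'] at h3
    exact h3
  refine hS.pr (Units.map j c) (Units.map j c') ?_ a ha b hb a' ha' b' hb' ?_ ?_
  · change j c + j c' = 1
    rw [hc', map_sub, map_one]
    ring
  · rw [hr.cst, hc2, hu]
  · rw [hr.cst, h5, hv]

/-- the constants are in the compatible rings -/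
lemma Rl.const_aux (h : Lc O ϖ x₀) (hG : (G : E) = 1 + 4 * x₀) (hd : Dn O i) (hr : Rl i j φ)
    {O' : ValuationSubring F} (hC : Cmp φ O') (h2 : O'.valuation (2 : F) = 1) {m : k}
    (hm : m ≠ 0) : ¬ O'.valuation (j m) < 1 := by
  intro hm1
  have hGv : O.valuation (G : E) = 1 := by
    have := h.sy.G1 (z := (x₀ : E)) h.x0.le hG
    have h1 := eq_of_close (v := O.valuation) (x := (G : E)) (y := 1) (by rwa [map_one])
    rw [h1, map_one]
  obtain ⟨c, -, hc, hcv⟩ := h.apx hd G 1
  rw [hGv] at hcv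
  have hc0 : (c : k) ≠ 0 := c.ne_zero
  have hjc0 : j c ≠ 0 := by rwa [Ne, map_eq_zero]
  -- an element close to zero for `O'`
  obtain ⟨z₀, hz₀, hz₁, hz₂⟩ : ∃ z : kˣ, True ∧ O'.valuation (j z) < 1 ∧
      O'.valuation (j (c * z)) < 1 := by
    rcases le_total (O'.valuation (j c)) 1 with h1 | h1
    · refine ⟨Units.mk0 m hm, trivial, hm1, ?_⟩
      rw [map_mul, map_mul, Units.val_mk0]
      exact mul_lt_one_of_nonneg_of_lt_one_right h1 zero_le hm1
    · refine ⟨Units.mk0 (m / c) (div_ne_zero hm hc0), trivial, ?_, ?_⟩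
      · rw [Units.val_mk0, map_div₀, map_div₀]
        exact (div_lt_one₀ (zero_lt_one.trans_le h1)).2 (hm1.trans_le h1)
      · rw [Units.val_mk0, mul_div_cancel₀ _ hc0]
        exact hm1
  have h2k : (2 : k) ≠ 0 := by
    intro e
    apply h.ne
    have := congrArg i e
    rwa [map_ofNat, map_zero] at this
  have hj2 : j 2 = 2 := map_ofNat j 2
  have hi2 : i 2 = 2 := map_ofNat i 2
  have h20 : 0 < O.valuation (2 : E) := zero_lt_iff.2 ((Valuation.ne_zero_iff _).2 h.ne)
  obtain ⟨n, hn⟩ := h.arch (2 : E) h.two (Units.map i (z₀ * (Units.mk0 2 h2k) ^ 3))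
  obtain ⟨z, hz⟩ : ∃ z : k, z = z₀ / 2 ^ n := ⟨_, rfl⟩
  have hzv : O'.valuation (j z) < 1 := by
    rw [hz, map_div₀, map_pow, hj2, map_div₀, map_pow, h2, one_pow, div_one]
    exact hz₁
  have hczv : O'.valuation (j (c * z)) < 1 := by
    rw [hz, mul_div_assoc', map_div₀, map_pow, hj2, map_div₀, map_pow, h2, one_pow, div_one]
    exact hz₂
  have hz₀v : 0 < O.valuation (i z₀) := val_pos O (Units.map (i : k →* E) z₀)
  have hn' : O.valuation (2 : E) ^ n ≤ O.valuation (i z₀) * O.valuation (2 : E) ^ 3 := by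
    have e : ((Units.map i (z₀ * (Units.mk0 2 h2k) ^ 3) : Eˣ) : E) = i z₀ * 2 ^ 3 := by
      change i ((z₀ * (Units.mk0 2 h2k) ^ 3 : kˣ) : k) = _
      rw [Units.val_mul, map_mul, Units.val_pow_eq_pow_val, map_pow, Units.val_mk0, hi2]
    rwa [e, map_mul, map_pow] at hn
  have hzE : O.valuation (i z) * O.valuation (2 : E) ^ 3 ≥ 1 := by
    rw [hz, map_div₀, map_pow, hi2, map_div₀, map_pow, div_mul_eq_mul_div, ge_iff_le,
      one_le_div₀ (pow_pos h20 n)]
    exact hn'
  have hz1 : 1 < O.valuation (2 : E) ^ 2 * O.valuation (i z) := by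
    have h3 : O.valuation (i z) * O.valuation (2 : E) ^ 3 =
        O.valuation (2 : E) ^ 2 * O.valuation (i z) * O.valuation (2 : E) := by
      rw [pow_succ]
      ac_rfl
    rw [h3] at hzE
    by_contra hcon
    rw [not_lt] at hcon
    have h4 : O.valuation (2 : E) ^ 2 * O.valuation (i z) * O.valuation (2 : E) ≤
        1 * O.valuation (2 : E) := mul_le_mul_left hcon _
    rw [one_mul] at h4
    exact absurd (hzE.le.trans h4) (not_le.2 h.two)
  have hz2 : 1 < O.valuation (i z) := by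
    refine hz1.trans_le ?_
    exact mul_le_of_le_one_left zero_le (pow_le_one₀ zero_le h.two.le)
  -- the element `(1 + c z) / (1 + z)`
  obtain ⟨u, hu, hu1⟩ := hC _ hczv
  obtain ⟨w, hw, hw1⟩ := hC _ hzv
  have hcz0 : (1 : k) + c * z ≠ 0 := by
    intro e
    apply u.ne_zero
    rw [hu, ← map_one j, ← map_add, e, map_zero]
  have h1z0 : (1 : k) + z ≠ 0 := by
    intro e
    apply w.ne_zero
    rw [hw, ← map_one j, ← map_add, e, map_zero]
  obtain ⟨x, hx⟩ : ∃ x : kˣ, x = Units.mk0 _ hcz0 / Units.mk0 _ h1z0 := ⟨_, rfl⟩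
  have hx1 : φ (Units.map j x) = 1 := by
    have e : Units.map (j : k →* F) x = u / w := by
      ext
      rw [Units.val_div_eq_div_val, hu, hw, hx]
      change j ((Units.mk0 _ hcz0 / Units.mk0 _ h1z0 : kˣ) : k) = _
      rw [Units.val_div_eq_div_val, Units.val_mk0, Units.val_mk0, map_div₀, map_add, map_add,
        map_one]
    rw [e, map_div, hu1, hw1, div_one]
  rw [hr.cst] at hx1
  apply h.G_ne hG
  rw [← hc, ← hx1, eq_comm]
  apply h.close
  change O.valuation (i x - i c) < O.valuation (2 : E) ^ 2 * O.valuation (i c)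
  have hv1z : O.valuation (i (1 + z)) = O.valuation (i z) := by
    rw [map_add, map_one, add_comm]
    exact Valuation.map_add_eq_of_lt_left _ (by rwa [map_one])
  have e : i x - i c = i (1 - c) / i (1 + z) := by
    rw [hx, ← map_div₀, ← map_sub]
    congr 1
    rw [Units.val_div_eq_div_val, Units.val_mk0, Units.val_mk0]
    field_simp
    ring
  rw [e, map_div₀, hv1z, hcv, mul_one, div_lt_iff₀ (zero_lt_one.trans hz2)]
  refine lt_of_le_of_lt ?_ hz1
  rw [map_sub, map_one]
  exact Valuation.map_sub_le _ (by rw [map_one]) hcv.le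

lemma Rl.const (h : Lc O ϖ x₀) (hG : (G : E) = 1 + 4 * x₀) (hd : Dn O i) (hr : Rl i j φ)
    {O' : ValuationSubring F} (hC : Cmp φ O') (h2 : O'.valuation (2 : F) = 1) (c : k) :
    j c ∈ O' := by
  by_contra hc
  have hc0 : c ≠ 0 := by
    rintro rfl
    apply hc
    rw [map_zero]
    exact O'.zero_mem
  apply hr.const_aux h hG hd hC h2 (inv_ne_zero hc0)
  rw [EB.lt_one_iff, map_inv₀, inv_inv]
  exact Or.inr hc

end

end Pool.Agent.Helper58.BS
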