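import Mathlib
import Pool.Agent.Helper58.BS.Eng

set_option autoImplicit false

/-! Passage to the residue field of a minimal compatible ring and the ring of rank one. -/

namespace Pool.Agent.Helper58.BS

open Pool.Agent.Y920.EP Pool.Agent.Helper58.EB Pool.Agent.Helper58.ET

section

variable {E : Type} [Field E] {O : ValuationSubring E} {ϖ x₀ : Eˣ}
variable {k : Type} [Field k] {i : k →+* E}
variable {F : Type} [Field F] {j : k →+* F} {φ : Fˣ →* Sc E} {G : Eˣ}

lemma cast_two (F : Type) [Field F] : ((2 : ℕ) : F) = 2 := Nat.cast_ofNat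

/-- the residue field of a minimal compatible ring -/
theorem Rl.min (h : Lc O ϖ x₀) (hG : (G : E) = 1 + 4 * x₀) (hd : Dn O i) (hr : Rl i j φ)
    (hF : (2 : F) ≠ 0) : ∃ (R : ValuationSubring F) (hk : ∀ c, j c ∈ R)
      (j' : k →+* IsLocalRing.ResidueField R) (ψ : (IsLocalRing.ResidueField R)ˣ →* Sc E),
      (∀ c, j' c = IsLocalRing.residue R ⟨j c, hk c⟩) ∧ Rl i j' ψ ∧
      (∀ (u : Fˣ) (hu : (u : F) ∈ R), R.valuation (u : F) = 1 →
        ∃ w : (IsLocalRing.ResidueField R)ˣ, (w : IsLocalRing.ResidueField R) =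
          IsLocalRing.residue R ⟨u, hu⟩ ∧ ψ w = φ u) ∧
      (∀ O₁ : ValuationSubring (IsLocalRing.ResidueField R), O₁ ≠ ⊤ →
        O₁.valuation (2 : IsLocalRing.ResidueField R) = 1 → ¬ Cmp ψ O₁) := by
  have hF' : ((2 : ℕ) : F) ≠ 0 := by rwa [cast_two]
  obtain ⟨R, hR, hmin⟩ := exists_min_gd (φ := φ) (p := 2) hF'
  have hpv := hR.pv
  rw [cast_two] at hpv
  have hk : ∀ c, j c ∈ R := fun c => hr.const h hG hd hR.cmp hpv c
  obtain ⟨ψ, hψ⟩ := exists_psi R hR.cmp
  have hval : ∀ c : kˣ, R.valuation (j c) = 1 := by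
    intro c
    refine le_antisymm ((R.valuation_le_one_iff _).2 (hk c)) ?_
    have h1 := (R.valuation_le_one_iff _).2 (hk ((c⁻¹ : kˣ) : k))
    rw [Units.val_inv_eq_inv_val, map_inv₀, map_inv₀] at h1
    have h0 : 0 < R.valuation (j c) := val_pos R (Units.map (j : k →* F) c)
    exact (inv_le_one₀ h0).1 h1
  refine ⟨R, hk, (IsLocalRing.residue R).comp (j.codRestrict R hk),
    (AU φ R).subtype.comp ψ, fun c => rfl, ⟨?_, ?_⟩, ?_, ?_⟩
  · intro c
    obtain ⟨w, hw, hw1⟩ := class_res hψ (u := Units.map (j : k →* F) c) (hval c)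
    rw [← hr.cst, ← hw1]
    congr 1
    ext
    rw [hw]
    rfl
  · intro f g hfg
    obtain ⟨u, hu, hur, hu1⟩ := exists_lift hψ f
    obtain ⟨v, hv, hvr, hv1⟩ := exists_lift hψ g
    rw [← hu1, ← hv1]
    have huR := val_one_mem R hu
    have h1 : (1 : F) - u ∈ R := R.toSubring.sub_mem R.one_mem huR
    have h2 : IsLocalRing.residue R ⟨1 - u, h1⟩ = g := by
      have e : (⟨1 - (u : F), h1⟩ : R) = 1 - ⟨u, huR⟩ := rfl
      rw [e, map_sub, map_one, hur]
      linear_combination (-1) * hfg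
    have h3 : R.valuation (1 - (u : F)) = 1 := by
      refine valuation_eq_one_of R ⟨1 - (u : F), h1⟩ ?_
      rw [h2]
      exact g.ne_zero
    have h4 : (1 : F) - u ≠ 0 := by
      intro e
      rw [e, map_zero] at h3
      exact zero_ne_one h3
    have h5 : R.valuation ((Units.mk0 _ h4 : Fˣ) : F) = 1 := h3
    have h6 : φ (Units.mk0 _ h4) = φ v := by
      apply class_eq hR.cmp h5 hv
      rw [hvr, ← h2]
      rfl
    rw [← h6]
    apply hr.rel
    rw [Units.val_mk0]
    ring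
  · intro u hu hu1
    obtain ⟨w, hw, hw1⟩ := class_res hψ hu1
    exact ⟨w, hw, hw1⟩
  · intro O₁ htop h2 hC
    have hC' : Cmp ψ O₁ := by
      intro x hx
      obtain ⟨u, hu, hu1⟩ := hC x hx
      exact ⟨u, hu, Subtype.ext hu1⟩
    obtain ⟨R', h3, h4, h5⟩ := comp_res hF' hR hψ O₁ ⟨by rw [cast_two]; exact h2, hC'⟩ htop
    exact h5 (hmin R' h3 h4)

/-- the ring of rank one -/
theorem Rl.ring (h : Lc O ϖ x₀) (hG : (G : E) = 1 + 4 * x₀) (hd : Dn O i) (hr : Rl i j φ)
    (hF : (2 : F) ≠ 0) [Infinite F] [Finite (Sc E)] (hmin : ∀ O₁ : ValuationSubring F, O₁ ≠ ⊤ →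
        O₁.valuation (2 : F) = 1 → ¬ Cmp φ O₁) :
    ∃ O₁ : ValuationSubring F, Sy φ Nn O₁ ∧ ∀ x : F, O₁.valuation x < 1 → ∀ y : Fˣ, ∃ j : ℕ,
      O₁.valuation x ^ j ≤ O₁.valuation (y : F) := by
  have hnd := hr.nd h hG hd
  have hind := hr.indec h hG hd
  have hnt : Nontrivial (Sc E) := ⟨cl G, 1, h.G_ne hG⟩
  have hsq : ∀ a : Sc E, a ^ 2 = 1 := by
    intro a
    obtain ⟨u, rfl⟩ := cl_surj a
    rw [← map_pow, cl_sq]
  have hkp : ∀ c : Fˣ, φ (c ^ 2) = 1 := by
    intro c
    rw [map_pow, hsq]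
  have hζ : IsPrimitiveRoot (-1 : Fˣ) 2 := by
    refine ⟨by rw [neg_one_sq], fun l hl => ?_⟩
    rcases Nat.even_or_odd l with he | ho
    · exact he.two_dvd
    · exfalso
      rw [ho.neg_one_pow] at hl
      have h1 := congrArg Units.val hl
      rw [Units.val_neg, Units.val_one] at h1
      apply hF
      linear_combination (-1) * h1
  have hsub : (1 : F) - ((-1 : Fˣ) : F) = 2 := by
    rw [Units.val_neg, Units.val_one]
    norm_num
  -- rings of rank one
  have key : ∀ (R : ValuationSubring F) (d : Fˣ), R ≠ ⊤ → R.valuation (d : F) < 1 →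
      (∀ v : F, R.valuation v ≤ R.valuation (d : F) → ∃ u : Fˣ, (u : F) = 1 + v ∧ φ u = 1) →
      (∀ x : F, R.valuation x < 1 → ∀ y : Fˣ, ∃ j : ℕ,
          R.valuation x ^ j ≤ R.valuation (y : F)) →
      ∃ O₁ : ValuationSubring F, Sy φ Nn O₁ ∧ ∀ x : F, O₁.valuation x < 1 → ∀ y : Fˣ, ∃ j : ℕ,
      O₁.valuation x ^ j ≤ O₁.valuation (y : F) := by
    intro R d hR hd1 hd2 harch
    rcases (val_natCast_le R 2).lt_or_eq with h1 | h1
    · rw [cast_two] at h1
      refine ⟨R, ⟨h.sy.symm, hr.rel, hkp, h1, hF, ?_⟩, harch⟩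
      intro y hy
      refine one_of_open Nat.prime_two hζ R (by rw [cast_two]; exact h1) hkp hd2 harch ?_
      rw [hsub]
      exact hy
    · exfalso
      have h1' := h1
      rw [cast_two] at h1'
      exact hmin R hR h1' fun x hx => newton' R h1 hkp hd2 hx (harch x hx d)
  rcases EU.open_or_ord hnd hind Nat.prime_two hkp with ⟨V, c, hcV, hcV', hc⟩ | ⟨-, hord⟩
  · rcases coarse2 V hcV hcV' hc with ⟨R, hR, hC, -, -⟩ | ⟨R, d, hR, -, -, hd1, hd2, harch⟩
    · rcases (val_natCast_le R 2).lt_or_eq with h1 | h1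
      · obtain ⟨q, hq⟩ : ∃ q : Fˣ, (q : F) = 2 := ⟨Units.mk0 _ hF, Units.val_mk0 _⟩
        rw [cast_two, ← hq] at h1
        have h1' : ((q⁻¹ : Fˣ) : F) ∉ R := by
          rw [Units.val_inv_eq_inv_val]
          exact ((EB.lt_one_iff R).1 h1).resolve_left q.ne_zero
        rcases coarse2 R ((R.valuation_le_one_iff _).1 h1.le) h1' (fun v hv => hC _ (by
          rw [map_mul]
          exact mul_lt_one_of_nonneg_of_lt_one_left zero_le h1
            ((R.valuation_le_one_iff _).2 hv))) with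
          ⟨R', hR', hC', -, hq'⟩ | ⟨R', d, hR', -, -, hd1, hd2, harch⟩
        · exfalso
          refine hmin R' hR' ?_ hC'
          have h3 := pv_iff R' (p := 2) (by rwa [cast_two])
          rw [cast_two, ← hq, ← Units.val_inv_eq_inv_val] at h3
          rw [← hq]
          exact h3.2 hq'
        · exact key R' d hR' hd1 hd2 harch
      · exfalso
        rw [cast_two] at h1
        exact hmin R hR h1 hC
    · exact key R d hR hd1 hd2 harch
  · -- orderings
    exfalso
    have htwo : ∀ u : Fˣ, φ u = 1 ∨ φ u = φ (-1) := by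
      intro u
      rcases hord.tot u with h1 | h1
      · exact Or.inl h1
      · right
        have h2 : φ (-u) = 1 := h1
        rw [EU.phi_neg', mul_eq_one_iff_eq_inv] at h2
        rw [h2]
        exact (inv_eq_iff_mul_eq_one.2 (by rw [← pow_two, hsq])).symm
    have hall : ∀ a : Sc E, a ≠ 1 → a = φ (-1) := by
      intro a ha
      obtain ⟨u, rfl⟩ := hnd.surj a
      exact (htwo u).resolve_left ha
    have hϖ1 : cl ϖ ≠ 1 := by
      intro e
      apply h.ϖ_notMem hG
      rw [e]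
      exact one_mem _
    have e : cl ϖ = cl G := (hall _ hϖ1).trans (hall _ (h.G_ne hG)).symm
    apply h.ϖ_notMem hG
    rw [e]
    have hG1 := h.sy.G1 (z := (x₀ : E)) h.x0.le hG
    exact h.sy.f2' h.x0 hG hG1

end

end Pool.Agent.Helper58.BS
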