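import Mathlib
import Pool.Agent.Helper58.BS.Min

set_option autoImplicit false

/-! The constants are dense for the ring of rank one. -/

namespace Pool.Agent.Helper58.BS

open Pool.Agent.Y920.EP Pool.Agent.Helper58.EB Pool.Agent.Helper58.ET

section

variable {E : Type} [Field E] {O : ValuationSubring E} {ϖ x₀ : Eˣ}
variable {k : Type} [Field k] {i : k →+* E}
variable {F : Type} [Field F] {j : k →+* F} {φ : Fˣ →* Sc E} {G : Eˣ}
variable {R : ValuationSubring F}

/-- rank one -/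
def Ar {F : Type} [Field F] (R : ValuationSubring F) : Prop :=
  ∀ x : F, R.valuation x < 1 → ∀ y : Fˣ, ∃ n : ℕ, R.valuation x ^ n ≤ R.valuation (y : F)

lemma Ar.lt (ha : Ar R) {x : F} (hx : R.valuation x < 1) (y : Fˣ) :
    ∃ n : ℕ, ∀ m, n ≤ m → R.valuation x ^ m < R.valuation (y : F) := by
  obtain ⟨n, hn⟩ := ha x hx y
  refine ⟨n + 1, fun m hm => ?_⟩
  by_cases hx0 : R.valuation x = 0
  · rw [hx0, zero_pow (by omega)]
    exact val_pos R y
  · have h0 : 0 < R.valuation x := zero_lt_iff.2 hx0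
    calc R.valuation x ^ m ≤ R.valuation x ^ (n + 1) := pow_le_pow_right_of_le_one' hx.le hm
      _ < R.valuation x ^ n := pow_lt_pow_right_of_lt_one₀ h0 hx (Nat.lt_succ_self n)
      _ ≤ R.valuation (y : F) := hn

lemma Lc.Gv (h : Lc O ϖ x₀) (hG : (G : E) = 1 + 4 * x₀) : O.valuation (G : E) = 1 := by
  have := h.sy.G1 (z := (x₀ : E)) h.x0.le hG
  have h1 := eq_of_close (v := O.valuation) (x := (G : E)) (y := 1) (by rwa [map_one])
  rw [h1, map_one]

/-- independence -/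
lemma Rl.ind (h : Lc O ϖ x₀) (hG : (G : E) = 1 + 4 * x₀) (hd : Dn O i) (hr : Rl i j φ)
    (hS : Sy φ Nn R) (ha : Ar R) {z : k} (hz1 : O.valuation (i z) < 1) :
    R.valuation (j z) ≤ 1 := by
  by_contra hz2
  rw [not_le] at hz2
  have hz0 : z ≠ 0 := by
    rintro rfl
    rw [map_zero, map_zero] at hz2
    exact absurd hz2 (not_lt.2 zero_le)
  obtain ⟨c, -, hc, hcv⟩ := h.apx hd G 1
  rw [h.Gv hG] at hcv
  have hc1 : (c : k) - 1 ≠ 0 := by
    intro e
    have : c = 1 := by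
      ext
      rw [Units.val_one]
      linear_combination e
    rw [this, map_one, map_one] at hc
    exact h.G_ne hG hc.symm
  have h2k : (2 : k) ≠ 0 := by
    intro e
    apply h.ne
    have := congrArg i e
    rwa [map_ofNat, map_zero] at this
  have hj2 : j 2 = 2 := map_ofNat j 2
  have hi2 : i 2 = 2 := map_ofNat i 2
  obtain ⟨zu, hzu⟩ : ∃ zu : kˣ, (zu : k) = z := ⟨Units.mk0 z hz0, Units.val_mk0 _⟩
  have hzi : R.valuation (j z⁻¹) < 1 := by
    rw [map_inv₀, map_inv₀]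
    exact inv_lt_one_of_one_lt₀ hz2
  obtain ⟨y, hy⟩ : ∃ y : Fˣ, (y : F) = j (2 ^ 2 / (c - 1)) :=
    ⟨Units.map (j : k →* F) (Units.mk0 _ (div_ne_zero (pow_ne_zero 2 h2k) hc1)), rfl⟩
  obtain ⟨n₁, hn₁⟩ := ha.lt hzi y
  obtain ⟨n₂, hn₂⟩ := Ar.lt (R := O) h.arch hz1 ((Units.mk0 2 h.ne) ^ 2)
  obtain ⟨n, hn⟩ : ∃ n, n = n₁ + n₂ + 1 := ⟨_, rfl⟩
  have h1 := hn₁ n (by omega)
  have h2 := hn₂ n (by omega)
  rw [Units.val_pow_eq_pow_val, Units.val_mk0, map_pow] at h2
  have hv4 : O.valuation (2 : E) ^ 2 < 1 := pow_lt_one₀ zero_le h.two two_ne_zero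
  -- the element `(z ^ n + c) / (1 + z ^ n)`
  have hE1 : O.valuation (i (1 + z ^ n)) = 1 := by
    rw [map_add, map_one, map_pow]
    apply val_one_add
    rw [map_pow]
    exact h2.trans hv4
  have hzn : 1 < R.valuation (j (z ^ n)) := by
    rw [map_pow, map_pow]
    exact one_lt_pow₀ hz2 (by omega)
  have hF1 : R.valuation (j (1 + z ^ n)) = R.valuation (j (z ^ n)) := by
    rw [map_add, map_one, add_comm]
    exact Valuation.map_add_eq_of_lt_left _ (by rwa [map_one])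
  have hne : (1 : k) + z ^ n ≠ 0 := by
    intro e
    rw [e, map_zero, map_zero] at hE1
    exact zero_ne_one hE1
  have hlt : R.valuation (j ((c - 1) / (1 + z ^ n))) < R.valuation (2 : F) ^ 2 := by
    rw [map_div₀, map_div₀, hF1, div_lt_iff₀ (zero_lt_one.trans hzn)]
    rw [hy, map_div₀, map_div₀, map_pow, map_pow, hj2, map_inv₀, map_inv₀] at h1
    have hcp : 0 < R.valuation (j ((c : k) - 1)) := by
      rw [zero_lt_iff, Valuation.ne_zero_iff, Ne, map_eq_zero]
      exact hc1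
    have hzp : 0 < R.valuation (j z) := zero_lt_one.trans hz2
    rw [lt_div_iff₀ hcp, inv_pow, inv_mul_lt_iff₀ (pow_pos hzp n)] at h1
    rw [map_pow, map_pow, mul_comm]
    exact h1
  obtain ⟨u, hu, hu1⟩ := hS.one _ hlt
  have hxe : (1 : k) + (c - 1) / (1 + z ^ n) = (z ^ n + c) / (1 + z ^ n) := by
    field_simp
    ring
  have hx0 : (1 : k) + (c - 1) / (1 + z ^ n) ≠ 0 := by
    intro e
    apply u.ne_zero
    rw [hu, ← map_one j, ← map_add, e, map_zero]
  obtain ⟨x, hx⟩ : ∃ x : kˣ, (x : k) = 1 + (c - 1) / (1 + z ^ n) :=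
    ⟨Units.mk0 _ hx0, Units.val_mk0 _⟩
  have hxu : Units.map (j : k →* F) x = u := by
    ext
    rw [hu]
    change j x = _
    rw [hx, map_add, map_one]
  have hx1 : cl (Units.map (i : k →* E) x) = 1 := by rw [← hr.cst, hxu, hu1]
  apply h.G_ne hG
  rw [← hc, ← hx1, eq_comm]
  apply h.close
  change O.valuation (i x - i c) < O.valuation (2 : E) ^ 2 * O.valuation (i c)
  have e : i x - i c = i (z ^ n) * i (1 - c) / i (1 + z ^ n) := by
    rw [← map_mul, ← map_div₀, ← map_sub]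
    congr 1
    rw [hx]
    field_simp
    ring
  rw [e, map_div₀, hE1, div_one, hcv, mul_one, map_mul, map_pow, map_pow]
  refine lt_of_le_of_lt (mul_le_of_le_one_right zero_le ?_) h2
  rw [map_sub, map_one]
  exact Valuation.map_sub_le _ (by rw [map_one]) hcv.le

/-- the two rings agree on the constants -/
lemma Rl.cmp (h : Lc O ϖ x₀) (hG : (G : E) = 1 + 4 * x₀) (hd : Dn O i) (hr : Rl i j φ)
    (hS : Sy φ Nn R) (ha : Ar R) (c : k) :
    R.valuation (j c) ≤ 1 ↔ O.valuation (i c) ≤ 1 := by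
  by_cases hc0 : c = 0
  · rw [hc0, map_zero, map_zero, map_zero, map_zero]
    simp
  have hj2 : j 2 = 2 := map_ofNat j 2
  have hi2 : i 2 = 2 := map_ofNat i 2
  have hjc0 : j c ≠ 0 := by rwa [Ne, map_eq_zero]
  have hic0 : i c ≠ 0 := by rwa [Ne, map_eq_zero]
  constructor
  · intro h1
    by_contra h2
    rw [not_le] at h2
    obtain ⟨n, hn⟩ := Ar.lt (R := O) h.arch (x := i c⁻¹) (by
      rw [map_inv₀, map_inv₀]
      exact inv_lt_one_of_one_lt₀ h2) (Units.mk0 2 h.ne)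
    have h3 := hn n le_rfl
    rw [Units.val_mk0, map_inv₀, map_inv₀] at h3
    have h4 := hr.ind h hG hd hS ha (z := (2 * c ^ n)⁻¹) (by
      rw [map_inv₀, map_mul, hi2, map_pow, map_inv₀, map_mul, map_pow]
      apply inv_lt_one_of_one_lt₀
      rwa [inv_pow, inv_lt_iff_one_lt_mul₀ (pow_pos (zero_lt_one.trans h2) n)] at h3)
    rw [map_inv₀, map_mul, hj2, map_pow, map_inv₀, map_mul, map_pow] at h4
    have h5 : R.valuation (2 : F) * R.valuation (j c) ^ n < 1 :=
      mul_lt_one_of_nonneg_of_lt_one_left zero_le hS.two (pow_le_one₀ zero_le h1)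
    have h6 : 0 < R.valuation (2 : F) * R.valuation (j c) ^ n := by
      refine mul_pos (zero_lt_iff.2 ((Valuation.ne_zero_iff _).2 hS.ne)) (pow_pos ?_ n)
      exact zero_lt_iff.2 ((Valuation.ne_zero_iff _).2 hjc0)
    exact absurd h4 (not_le.2 ((one_lt_inv₀ h6).2 h5))
  · intro h1
    by_contra h2
    rw [not_le] at h2
    obtain ⟨n, hn⟩ := ha.lt (x := j c⁻¹) (by
      rw [map_inv₀, map_inv₀]
      exact inv_lt_one_of_one_lt₀ h2) (Units.mk0 2 hS.ne)
    have h3 := hn n le_rfl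
    rw [Units.val_mk0, map_inv₀, map_inv₀] at h3
    have h4 := hr.ind h hG hd hS ha (z := 2 * c ^ n) (by
      rw [map_mul, hi2, map_pow, map_mul, map_pow]
      exact mul_lt_one_of_nonneg_of_lt_one_left zero_le h.two (pow_le_one₀ zero_le h1))
    rw [map_mul, hj2, map_pow, map_mul, map_pow] at h4
    rw [inv_pow, inv_lt_iff_one_lt_mul₀ (pow_pos (zero_lt_one.trans h2) n)] at h3
    exact absurd h4 (not_le.2 h3)

lemma Rl.cmp' (h : Lc O ϖ x₀) (hG : (G : E) = 1 + 4 * x₀) (hd : Dn O i) (hr : Rl i j φ)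
    (hS : Sy φ Nn R) (ha : Ar R) (a b : k) :
    R.valuation (j a) ≤ R.valuation (j b) ↔ O.valuation (i a) ≤ O.valuation (i b) := by
  by_cases hb0 : b = 0
  · rw [hb0, map_zero, map_zero, map_zero, map_zero, le_zero_iff, le_zero_iff, map_eq_zero,
      map_eq_zero, map_eq_zero, map_eq_zero]
  have h1 := hr.cmp h hG hd hS ha (a / b)
  have h2 : 0 < R.valuation (j b) := by
    rw [zero_lt_iff, Valuation.ne_zero_iff, Ne, map_eq_zero]
    exact hb0
  have h3 : 0 < O.valuation (i b) := by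
    rw [zero_lt_iff, Valuation.ne_zero_iff, Ne, map_eq_zero]
    exact hb0
  rwa [map_div₀, map_div₀, map_div₀, map_div₀, div_le_one₀ h2, div_le_one₀ h3] at h1

lemma Rl.cmpl (h : Lc O ϖ x₀) (hG : (G : E) = 1 + 4 * x₀) (hd : Dn O i) (hr : Rl i j φ)
    (hS : Sy φ Nn R) (ha : Ar R) (a b : k) :
    R.valuation (j a) < R.valuation (j b) ↔ O.valuation (i a) < O.valuation (i b) := by
  rw [← not_le, ← not_le, hr.cmp' h hG hd hS ha]

end

end Pool.Agent.Helper58.BS
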