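import Mathlib
import Pool.Agent.Helper58.BS.Dens

set_option autoImplicit false

/-! Approximation of the elements of the field by constants. -/

namespace Pool.Agent.Helper58.BS

open Pool.Agent.Y920.EP Pool.Agent.Helper58.EB Pool.Agent.Helper58.ET

section

variable {E : Type} [Field E] {O : ValuationSubring E} {ϖ x₀ : Eˣ}
variable {k : Type} [Field k] {i : k →+* E}
variable {F : Type} [Field F] {j : k →+* F} {φ : Fˣ →* Sc E} {G : Eˣ}
variable {R : ValuationSubring F}

lemma nn_one (h : Lc O ϖ x₀) (a : Sc E) : a ∈ Nn (1 : Sc E) := h.sy.symm _ _ (one_mem _)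

/-- the classes of the elements `1 + 4 z` -/
lemma Rl.k1 (h : Lc O ϖ x₀) (hG : (G : E) = 1 + 4 * x₀) (hd : Dn O i) (hr : Rl i j φ)
    (hS : Sy φ Nn R) (ha : Ar R) {z : F} (hz : R.valuation z ≤ 1) {T : Fˣ}
    (hT : (T : F) = 1 + 4 * z) : φ T = 1 ∨ φ T = cl G := by
  obtain ⟨t, ht⟩ := cl_surj (φ T)
  rw [← ht]
  apply h.nd1 hG
  intro b hb
  obtain ⟨c, hc1, hc2, -⟩ := h.apx hd b 1
  rw [Units.val_one, map_one] at hc1
  rw [← hc2, ht, ← hr.cst]
  have h1 : O.valuation (i ((c : k) - 1)) < O.valuation (i 1) := by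
    have e : i ((c : k) - 1) = (i c - b) + (b - 1) := by
      rw [map_sub, map_one]
      ring
    rw [e, map_one, map_one]
    exact Valuation.map_add_lt _ hc1 hb
  rw [← hr.cmpl h hG hd hS ha, map_sub, map_one, map_one] at h1
  rcases hz.lt_or_eq with hz1 | hz1
  · obtain ⟨u, hu, hu1⟩ := hS.one (4 * z) (by
      rw [map_mul, v4]
      exact mul_lt_of_lt_one_right
        (pow_pos (zero_lt_iff.2 ((Valuation.ne_zero_iff _).2 hS.ne)) 2) hz1)
    have e : T = u := by
      ext
      rw [hT, hu]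
    rw [e, hu1]
    exact nn_one h _
  · have hz0 : z ≠ 0 := by
      rintro rfl
      rw [map_zero] at hz1
      exact zero_ne_one hz1
    exact hS.f2' (z := Units.mk0 z hz0) hz1 hT h1

/-- a constant which generates the unramified extension -/
lemma Rl.gc (h : Lc O ϖ x₀) (hG : (G : E) = 1 + 4 * x₀) (hd : Dn O i) (hr : Rl i j φ)
    (hS : Sy φ Nn R) (ha : Ar R) : ∃ z₁ g : Fˣ, R.valuation (z₁ : F) = 1 ∧
      (g : F) = 1 + 4 * z₁ ∧ φ g = cl G := by
  obtain ⟨c, hc1, -, hc3⟩ := h.apx hd x₀ 1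
  rw [Units.val_one, map_one] at hc1
  rw [h.x0] at hc3
  have hcv : R.valuation (j c) = 1 := by
    apply le_antisymm
    · rw [hr.cmp h hG hd hS ha]
      exact hc3.le
    · have := hr.cmp' h hG hd hS ha 1 c
      rw [map_one, map_one, map_one, map_one] at this
      exact this.2 hc3.ge
  have h4 : O.valuation (i (1 + 4 * c) - G) < O.valuation (2 : E) ^ 2 * O.valuation (G : E) := by
    have e : i (1 + 4 * c) - G = 4 * (i c - x₀) := by
      rw [hG, map_add, map_mul, map_one, map_ofNat]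
      ring
    rw [e, map_mul, v4, h.Gv hG, mul_one]
    exact mul_lt_of_lt_one_right
        (pow_pos (zero_lt_iff.2 ((Valuation.ne_zero_iff _).2 h.ne)) 2) hc1
  have h5 : O.valuation (i (1 + 4 * c)) = 1 := by
    rw [← h.Gv hG]
    apply eq_of_close
    refine h4.trans ?_
    rw [h.Gv hG, mul_one]
    exact pow_lt_one₀ zero_le h.two two_ne_zero
  have h6 : (1 : k) + 4 * c ≠ 0 := by
    intro e
    rw [e, map_zero, map_zero] at h5
    exact zero_ne_one h5
  obtain ⟨g, hg⟩ : ∃ g : kˣ, (g : k) = 1 + 4 * c := ⟨Units.mk0 _ h6, Units.val_mk0 _⟩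
  refine ⟨Units.map (j : k →* F) c, Units.map (j : k →* F) g, hcv, ?_, ?_⟩
  · change j g = 1 + 4 * j c
    rw [hg, map_add, map_mul, map_one, map_ofNat]
  · rw [hr.cst]
    apply h.close
    change O.valuation (i g - G) < _
    rw [hg]
    exact h4

/-- the units are norms of the unramified extension -/
lemma Rl.f4 (h : Lc O ϖ x₀) (hG : (G : E) = 1 + 4 * x₀) (hd : Dn O i) (hr : Rl i j φ)
    (hS : Sy φ Nn R) (ha : Ar R) {y : Fˣ} (hy : R.valuation (y : F) = 1) :
    φ y ∈ Nn (cl G) := by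
  by_contra hcon
  obtain ⟨z₁, g, hz₁, hg, hgG⟩ := hr.gc h hG hd hS ha
  have hv4 : R.valuation (2 : F) ^ 2 < 1 := pow_lt_one₀ zero_le hS.two two_ne_zero
  have h20 : 0 < R.valuation (2 : F) ^ 2 :=
    pow_pos (zero_lt_iff.2 ((Valuation.ne_zero_iff _).2 hS.ne)) 2
  have hex : ∀ z : F, R.valuation z ≤ 1 → ∃ T : Fˣ, (T : F) = 1 + 4 * z := by
    intro z hz
    obtain ⟨u, hu, -⟩ := exists_unit_one_add R (x := 4 * z) (by
      rw [map_mul, v4]
      exact mul_lt_one_of_nonneg_of_lt_one_left zero_le hv4 hz)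
    exact ⟨u, hu⟩
  -- the first case
  have ha1 : ∀ (z : F) (T T' : Fˣ), R.valuation z ≤ 1 → (T : F) = 1 + 4 * z →
      (T' : F) = 1 + 4 * (y * z) → φ T ≠ 1 → φ T' = 1 := by
    intro z T T' hz hT hT' hne
    have hTG := (hr.k1 h hG hd hS ha hz hT).resolve_left hne
    have hz1 : R.valuation z = 1 := by
      refine hz.eq_of_not_lt fun hlt => hne ?_
      obtain ⟨u, hu, hu1⟩ := hS.one (4 * z) (by
        rw [map_mul, v4]
        exact mul_lt_of_lt_one_right h20 hlt)
      rw [← hu1]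
      congr 1
      ext
      rw [hT, hu]
    have hz0 : z ≠ 0 := by
      rintro rfl
      rw [map_zero] at hz1
      exact zero_ne_one hz1
    obtain ⟨zu, rfl⟩ : ∃ zu : Fˣ, (zu : F) = z := ⟨Units.mk0 z hz0, Units.val_mk0 _⟩
    have h1 := hS.f2b hz1 hT
    rw [hTG] at h1
    have h2 : φ (y * zu) ∉ Nn (cl G) := by
      rw [map_mul]
      intro h3
      exact hcon ((Subgroup.mul_mem_cancel_right _ h1).1 h3)
    have h3 : R.valuation ((y * zu : Fˣ) : F) = 1 := by
      rw [Units.val_mul, map_mul, hy, hz1, one_mul]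
    have h4 := hS.f2b h3 (G := T') (by rw [hT', Units.val_mul])
    refine (hr.k1 h hG hd hS ha (z := (y : F) * zu) h3.le hT').resolve_right fun h5 => ?_
    rw [h5] at h4
    exact h2 h4
  -- all elements
  have hall : ∀ (z : F) (T' : Fˣ), R.valuation z ≤ 1 → (T' : F) = 1 + 4 * (y * z) →
      φ T' = 1 := by
    intro z T' hz hT'
    obtain ⟨T, hT⟩ := hex z hz
    by_cases h1 : φ T = 1
    · have hyz : R.valuation ((y : F) * z) ≤ 1 := by rw [map_mul, hy, one_mul]; exact hz
      have hyz₁ : R.valuation ((y : F) * z₁) ≤ 1 := by rw [map_mul, hy, one_mul]; exact hz₁.le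
      have hzz₁ : R.valuation (z + z₁) ≤ 1 := Valuation.map_add_le _ hz hz₁.le
      obtain ⟨T₁, hT₁⟩ := hex (z + z₁) hzz₁
      obtain ⟨T₁', hT₁'⟩ := hex (y * (z + z₁)) (by rw [map_mul, hy, one_mul]; exact hzz₁)
      obtain ⟨T₂, hT₂⟩ := hex (y * z₁) hyz₁
      have h2 : φ T₁ = cl G := by
        rw [hS.add hz hz₁.le hT hg hT₁, h1, one_mul, hgG]
      have h3 := ha1 _ T₁ T₁' hzz₁ hT₁ hT₁' (by rw [h2]; exact h.G_ne hG)
      have h4 := ha1 z₁ g T₂ hz₁.le hg hT₂ (by rw [hgG]; exact h.G_ne hG)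
      have h5 := hS.add hyz hyz₁ hT' hT₂ (G'' := T₁') (by rw [hT₁']; ring)
      rw [h3, h4, mul_one] at h5
      exact h5.symm
    · exact ha1 z T T' hz hT hT' h1
  have h1 := hall (z₁ / y) g (by rw [map_div₀, hy, hz₁, div_one]) (by
    rw [hg]
    have := y.ne_zero
    field_simp)
  rw [hgG] at h1
  exact h.G_ne hG h1

/-- approximation, main case -/
lemma Rl.near1 (h : Lc O ϖ x₀) (hG : (G : E) = 1 + 4 * x₀) (hd : Dn O i) (hr : Rl i j φ)
    (hS : Sy φ Nn R) (ha : Ar R) {a : Fˣ} (ha1 : R.valuation (a : F) < 1)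
    (ha2 : R.valuation (2 : F) ^ 2 < R.valuation (a : F)) (haG : φ a ∉ Nn (cl G)) :
    ∃ c : k, R.valuation (a - j c) < R.valuation (a : F) := by
  by_contra hcon
  push Not at hcon
  obtain ⟨z₁, g, hz₁, hg, hgG⟩ := hr.gc h hG hd hS ha
  have hv4 : O.valuation (2 : E) ^ 2 < 1 := pow_lt_one₀ zero_le h.two two_ne_zero
  have h2k : (2 : k) ≠ 0 := by
    intro e
    apply h.ne
    have := congrArg i e
    rwa [map_ofNat, map_zero] at this
  have hj2 : j 2 = 2 := map_ofNat j 2
  have hi2 : i 2 = 2 := map_ofNat i 2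
  have hone : ∀ w : Fˣ, R.valuation ((w : F) - 1) < 1 → φ w ∈ Nn (cl G) := by
    intro w hw
    rw [← hgG]
    exact hS.f2' hz₁ hg hw
  obtain ⟨T, hT, hTv⟩ := exists_unit_one_add R ha1
  have hTG : φ T ∈ Nn (cl G) := by
    apply hone
    rw [hT, add_sub_cancel_left]
    exact ha1
  obtain ⟨b, hb⟩ := cl_surj (φ T)
  rw [← hb] at hTG
  obtain ⟨s, hs⟩ := h.even hG hTG
  obtain ⟨t, α, ht, hα, htb, hαc⟩ := h.desc hs
  -- a constant
  obtain ⟨c, hc1, hc2, hc3⟩ : ∃ c : k, R.valuation (j c) < 1 ∧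
      (∀ u : Fˣ, (u : F) = 1 + j c → φ u = φ T) ∧
      (R.valuation (j c) ≤ R.valuation (2 : F) ^ 2 ∨ R.valuation (2 : F) ^ 2 < R.valuation (j c) ∧
        ∀ u : Fˣ, (u : F) = j c → φ u ∉ Nn (cl G)) := by
    obtain ⟨c, hc⟩ := hd α ((Units.mk0 2 h.ne) ^ 2)
    rw [Units.val_pow_eq_pow_val, Units.val_mk0, map_pow] at hc
    have hcα : O.valuation (i c) < 1 := by
      have e : i c = (i c - α) + α := by ring
      rw [e]
      exact Valuation.map_add_lt _ (hc.trans hv4) hα
    refine ⟨c, ?_, ?_, ?_⟩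
    · have := hr.cmpl h hG hd hS ha c 1
      rw [map_one, map_one, map_one, map_one] at this
      exact this.2 hcα
    · intro u hu
      have h1 : (1 : k) + c ≠ 0 := by
        intro e
        apply u.ne_zero
        rw [hu, ← map_one j, ← map_add, e, map_zero]
      obtain ⟨d, hd'⟩ : ∃ d : kˣ, (d : k) = 1 + c := ⟨Units.mk0 _ h1, Units.val_mk0 _⟩
      have e : u = Units.map (j : k →* F) d := by
        ext
        rw [hu]
        change _ = j d
        rw [hd', map_add, map_one]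
      rw [e, hr.cst, ← hb, ← htb]
      apply h.close
      change O.valuation (i d - t) < _
      have htv : O.valuation (t : E) = 1 := by
        rw [ht]
        exact val_one_add O hα
      rw [htv, mul_one, hd', ht, map_add, map_one, add_sub_add_left_eq_sub]
      exact hc
    · have hcmp1 := hr.cmp' h hG hd hS ha c (2 ^ 2)
      have hcmp2 := hr.cmpl h hG hd hS ha (2 ^ 2) c
      simp only [map_pow, hj2, hi2] at hcmp1 hcmp2
      rcases hαc with h1 | ⟨h1, h2⟩
      · left
        rw [hcmp1]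
        have e : i c = (i c - α) + α := by ring
        rw [e]
        exact Valuation.map_add_le _ hc.le h1
      · right
        have h3 : O.valuation (i c) = O.valuation α := eq_of_close (hc.trans h1)
        refine ⟨hcmp2.2 (by rw [h3]; exact h1), ?_⟩
        intro u hu hmem
        have hc0 : c ≠ 0 := by
          rintro rfl
          apply u.ne_zero
          rw [hu, map_zero]
        have e : u = Units.map (j : k →* F) (Units.mk0 c hc0) := by
          ext
          rw [hu]
          rfl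
        rw [e, hr.cst] at hmem
        obtain ⟨s', hs'⟩ := h.even hG hmem
        apply h2 s'
        rw [← h3, ← hs']
        rfl
  have hac := hcon c
  -- the difference
  have hav := val_pos R a
  have hdc : j c - (a : F) ≠ 0 := by
    intro e
    have : (a : F) - j c = 0 := by linear_combination (-1) * e
    rw [this, map_zero] at hac
    exact absurd hav (not_lt.2 hac)
  obtain ⟨δ, hδ⟩ : ∃ δ : Fˣ, (δ : F) = j c - a := ⟨Units.mk0 _ hdc, Units.val_mk0 _⟩
  have hδv : R.valuation (a : F) ≤ R.valuation (δ : F) := by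
    rw [hδ, Valuation.map_sub_swap]
    exact hac
  obtain ⟨u, hu, -⟩ := exists_unit_one_add R hc1
  have hu1 := hc2 u hu
  have hT0 : (T : F) ≠ 0 := T.ne_zero
  have h1 : φ (δ / T) ∈ Nn (φ g) := by
    refine hS.f3 (t := u / T) hz₁ hg ?_ ?_ ?_
    · rw [Units.val_div_eq_div_val, map_div₀, hTv, div_one]
      exact ha2.trans_le hδv
    · rw [Units.val_div_eq_div_val, Units.val_div_eq_div_val, hu, hδ]
      field_simp
      rw [hT]
      ring
    · intro b _
      rw [map_div, hu1, div_self']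
      exact nn_one h _
  rw [hgG, map_div] at h1
  rw [hb] at hTG
  have h2 : φ δ ∈ Nn (cl G) := by
    have := mul_mem h1 hTG
    rwa [div_mul_cancel] at this
  have hneg : φ (-1) ∈ Nn (cl G) := hone _ hS.neg1
  rcases lt_trichotomy (R.valuation (j c)) (R.valuation (a : F)) with h3 | h3 | h3
  · -- the constant is small
    have h4 : φ (-1 * δ / a) ∈ Nn (cl G) := by
      apply hone
      have e : ((-1 * δ / a : Fˣ) : F) - 1 = -(j c / a) := by
        rw [Units.val_div_eq_div_val, Units.val_mul, Units.val_neg, Units.val_one, hδ]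
        field_simp
        ring
      rw [e, Valuation.map_neg, map_div₀, div_lt_one₀ hav]
      exact h3
    rw [map_div, map_mul] at h4
    apply haG
    have h5 := div_mem (mul_mem hneg h2) h4
    rwa [div_div_cancel] at h5
  · have h4 : φ (δ / a) ∈ Nn (cl G) := by
      apply hr.f4 h hG hd hS ha
      rw [Units.val_div_eq_div_val, map_div₀]
      rw [div_eq_one_iff_eq hav.ne']
      refine le_antisymm ?_ hδv
      rw [hδ]
      exact Valuation.map_sub_le _ h3.le le_rfl
    rw [map_div] at h4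
    apply haG
    have h5 := div_mem h2 h4
    rwa [div_div_cancel] at h5
  · have hjc0 : j c ≠ 0 := by
      intro e
      rw [e, map_zero] at h3
      exact absurd h3 (not_lt.2 zero_le)
    obtain ⟨v, hv⟩ : ∃ v : Fˣ, (v : F) = j c := ⟨Units.mk0 _ hjc0, Units.val_mk0 _⟩
    rcases hc3 with h4 | ⟨-, h4⟩
    · exact absurd (ha2.trans h3) (not_lt.2 h4)
    · apply h4 v hv
      have h5 : φ (δ / v) ∈ Nn (cl G) := by
        apply hone
        have e : ((δ / v : Fˣ) : F) - 1 = -(a / j c) := by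
          rw [Units.val_div_eq_div_val, hδ, hv]
          field_simp
          ring
        rw [e, Valuation.map_neg, map_div₀, div_lt_one₀ (hav.trans h3)]
        exact h3
      rw [map_div] at h5
      have h6 := div_mem h2 h5
      rwa [div_div_cancel] at h6

/-- shifting into a fundamental interval -/
lemma shift (ha : Ar R) {p : Fˣ} (hp : R.valuation (p : F) < 1) (α : Fˣ) :
    ∃ n : ℤ, R.valuation (p : F) ≤ R.valuation ((α * p ^ n : Fˣ) : F) ∧
      R.valuation ((α * p ^ n : Fˣ) : F) < 1 := by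
  classical
  obtain ⟨N, hN⟩ := ha _ hp α
  obtain ⟨β, hβ⟩ : ∃ β : Fˣ, β = α * p ^ (-(N : ℤ)) := ⟨_, rfl⟩
  have hp0 := val_pos R p
  have hβv : 1 ≤ R.valuation (β : F) := by
    rw [hβ, Units.val_mul, map_mul, Units.val_zpow_eq_zpow_val, map_zpow₀, zpow_neg,
      zpow_natCast, ← div_eq_mul_inv, one_le_div₀ (pow_pos hp0 N)]
    exact hN
  have hex : ∃ m : ℕ, R.valuation (β : F) * R.valuation (p : F) ^ m < 1 := by
    obtain ⟨m, hm⟩ := ha.lt hp β⁻¹
    refine ⟨m, ?_⟩
    have := hm m le_rfl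
    rw [Units.val_inv_eq_inv_val, map_inv₀] at this
    calc R.valuation (β : F) * R.valuation (p : F) ^ m
        < R.valuation (β : F) * (R.valuation (β : F))⁻¹ :=
          mul_lt_mul_of_pos_left this (val_pos R β)
      _ = 1 := mul_inv_cancel₀ (val_ne R β)
  obtain ⟨m, hm, hmin⟩ : ∃ m : ℕ, R.valuation (β : F) * R.valuation (p : F) ^ m < 1 ∧
      ∀ l < m, ¬ R.valuation (β : F) * R.valuation (p : F) ^ l < 1 :=
    ⟨Nat.find hex, Nat.find_spec hex, fun m hm => Nat.find_min hex hm⟩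
  have hm0 : m ≠ 0 := by
    rintro rfl
    rw [pow_zero, mul_one] at hm
    exact absurd hβv (not_le.2 hm)
  obtain ⟨l, rfl⟩ := Nat.exists_eq_succ_of_ne_zero hm0
  have hl := hmin l (Nat.lt_succ_self l)
  rw [not_lt] at hl
  have e : R.valuation ((α * p ^ ((l.succ : ℤ) - N) : Fˣ) : F) =
      R.valuation (β : F) * R.valuation (p : F) ^ l.succ := by
    rw [hβ, sub_eq_neg_add, zpow_add, ← mul_assoc, Units.val_mul, map_mul, zpow_natCast,
      Units.val_pow_eq_pow_val, map_pow]
  refine ⟨(l.succ : ℤ) - N, ?_, ?_⟩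
  · rw [e, Nat.succ_eq_add_one, pow_succ, ← mul_assoc]
    exact le_mul_of_one_le_left zero_le hl
  · rw [e]
    exact hm

end

end Pool.Agent.Helper58.BS
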