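import Mathlib
import Pool.Agent.Helper58.BS.Emb
import Pool.Agent.Helper58.ET.Dsc

set_option autoImplicit false

/-! Locally compact nonarchimedean fields of residue characteristic two. -/

namespace Pool.Agent.Helper58.BS

open Pool.Agent.Y920.EP Pool.Agent.Helper58.EB Pool.Agent.Helper58.ET
open scoped Topology

section

variable (E : Type) [NontriviallyNormedField E] [IsUltrametricDist E]

/-- the unit ball -/
def Ob : ValuationSubring E where
  carrier := {x | ‖x‖ ≤ 1}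
  mul_mem' := by
    intro a b ha hb
    change ‖a * b‖ ≤ 1
    rw [norm_mul]
    exact mul_le_one₀ ha (norm_nonneg b) hb
  one_mem' := by
    change ‖(1 : E)‖ ≤ 1
    rw [norm_one]
  add_mem' := by
    intro a b ha hb
    exact (IsUltrametricDist.norm_add_le_max a b).trans (max_le ha hb)
  zero_mem' := by
    change ‖(0 : E)‖ ≤ 1
    rw [norm_zero]
    exact zero_le_one
  neg_mem' := by
    intro a ha
    change ‖-a‖ ≤ 1
    rw [norm_neg]
    exact ha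
  mem_or_inv_mem' := by
    intro a
    rcases le_total ‖a‖ 1 with h | h
    · exact Or.inl h
    · right
      change ‖a⁻¹‖ ≤ 1
      rw [norm_inv]
      exact inv_le_one_of_one_le₀ h

variable {E}

lemma mem_Ob {x : E} : x ∈ Ob E ↔ ‖x‖ ≤ 1 := Iff.rfl

lemma Ob_le {x y : E} : (Ob E).valuation x ≤ (Ob E).valuation y ↔ ‖x‖ ≤ ‖y‖ := by
  by_cases hy : y = 0
  · rw [hy, map_zero, le_zero_iff, map_eq_zero, norm_zero, norm_le_zero_iff]
  have h1 : 0 < (Ob E).valuation y := zero_lt_iff.2 ((Valuation.ne_zero_iff _).2 hy)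
  have h2 : 0 < ‖y‖ := norm_pos_iff.2 hy
  rw [← div_le_one₀ h1, ← map_div₀, ValuationSubring.valuation_le_one_iff, mem_Ob, norm_div,
    div_le_one₀ h2]

lemma Ob_lt {x y : E} : (Ob E).valuation x < (Ob E).valuation y ↔ ‖x‖ < ‖y‖ := by
  rw [← not_le, ← not_le, Ob_le]

lemma Ob_le1 {x : E} : (Ob E).valuation x ≤ 1 ↔ ‖x‖ ≤ 1 := by
  have := Ob_le (x := x) (y := 1)
  rwa [map_one, norm_one] at this

lemma Ob_lt1 {x : E} : (Ob E).valuation x < 1 ↔ ‖x‖ < 1 := by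
  have := Ob_lt (x := x) (y := 1)
  rwa [map_one, norm_one] at this

lemma exists_ϖ [ProperSpace E] : ∃ ϖ : Eˣ, ‖(ϖ : E)‖ < 1 ∧ ∀ x : E, ‖x‖ < 1 → ‖x‖ ≤ ‖(ϖ : E)‖ := by
  have hc : IsCompact (Metric.ball (0 : E) 1) :=
    (isCompact_closedBall (0 : E) 1).of_isClosed_subset (IsUltrametricDist.isClosed_ball _ _)
      Metric.ball_subset_closedBall
  obtain ⟨x, hx, hmax⟩ := hc.exists_isMaxOn ⟨0, by simp⟩ (f := fun x : E => ‖x‖)
    continuous_norm.continuousOn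
  have hmax' : ∀ y : E, ‖y‖ < 1 → ‖y‖ ≤ ‖x‖ := fun y hy => hmax (mem_ball_zero_iff.2 hy)
  obtain ⟨y, hy0, hy1⟩ := NormedField.exists_norm_lt_one E
  have hx0 : x ≠ 0 := by
    rintro rfl
    have := hmax' y hy1
    rw [norm_zero] at this
    exact absurd hy0 (not_lt.2 this)
  exact ⟨Units.mk0 x hx0, mem_ball_zero_iff.1 hx, hmax'⟩

lemma Ob_ar : Ar (Ob E) := by
  intro x hx y
  rw [Ob_lt1] at hx
  obtain ⟨n, hn⟩ := exists_pow_lt_of_lt_one (norm_pos_iff.2 y.ne_zero) hx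
  refine ⟨n, ?_⟩
  rw [← map_pow, Ob_le, norm_pow]
  exact hn.le

instance [ProperSpace E] : Finite (IsLocalRing.ResidueField (Ob E)) := by
  obtain ⟨t, ht, hcov⟩ := (isCompact_closedBall (0 : E) 1).elim_nhds_subcover
    (fun x => Metric.ball x 1) (fun x _ => Metric.ball_mem_nhds x one_pos)
  have ht' : ∀ x ∈ t, x ∈ Ob E := fun x hx => mem_closedBall_zero_iff.1 (ht x hx)
  refine Finite.of_surjective (fun x : t => IsLocalRing.residue (Ob E) ⟨x.1, ht' x.1 x.2⟩) ?_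
  intro a
  obtain ⟨y, rfl⟩ := IsLocalRing.residue_surjective a
  have hy : (y : E) ∈ Metric.closedBall (0 : E) 1 := mem_closedBall_zero_iff.2 y.2
  obtain ⟨x, hx, hxy⟩ := Set.mem_iUnion₂.1 (hcov hy)
  refine ⟨⟨x, hx⟩, ?_⟩
  rw [← sub_eq_zero, ← map_sub, residue_eq_zero_iff]
  change (Ob E).valuation (x - y) < 1
  rw [Ob_lt1, ← dist_eq_norm, dist_comm]
  exact hxy

lemma hensel [ProperSpace E] (h2 : (2 : E) ≠ 0) (h21 : ‖(2 : E)‖ < 1) {y : E}
    (hy : ‖y‖ < ‖(2 : E)‖ ^ 2) : ∃ s : Eˣ, (s : E) ^ 2 = 1 + y := by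
  have h20 : 0 < ‖(2 : E)‖ := norm_pos_iff.2 h2
  obtain ⟨r, hr⟩ : ∃ r : ℝ, r = ‖y‖ / ‖(2 : E)‖ ^ 2 := ⟨_, rfl⟩
  have hr0 : 0 ≤ r := by rw [hr]; positivity
  have hr1 : r < 1 := by rw [hr, div_lt_one (by positivity)]; exact hy
  have hyr : ‖y‖ = ‖(2 : E)‖ ^ 2 * r := by rw [hr]; field_simp
  have key : ∀ n : ℕ, ∃ s : E, ‖s‖ = 1 ∧ ‖1 + y - s ^ 2‖ ≤ ‖(2 : E)‖ ^ 2 * r ^ (n + 1) := by
    intro n
    induction n with
    | zero =>
      refine ⟨1, norm_one, ?_⟩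
      rw [one_pow, add_sub_cancel_left, zero_add, pow_one, hyr]
    | succ n ih =>
      obtain ⟨s, hs, hsw⟩ := ih
      have hs0 : s ≠ 0 := by
        rintro rfl
        rw [norm_zero] at hs
        exact zero_ne_one hs
      obtain ⟨w, hw⟩ : ∃ w : E, w = 1 + y - s ^ 2 := ⟨_, rfl⟩
      rw [← hw] at hsw
      have hrn : r ^ (n + 1) ≤ 1 := pow_le_one₀ hr0 hr1.le
      have hw2 : ‖w‖ < ‖(2 : E)‖ := by
        calc ‖w‖ ≤ ‖(2 : E)‖ ^ 2 * r ^ (n + 1) := hsw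
          _ ≤ ‖(2 : E)‖ ^ 2 * 1 := by gcongr
          _ < ‖(2 : E)‖ := by nlinarith
      have hws : ‖w / (2 * s)‖ < ‖s‖ := by
        rw [norm_div, norm_mul, hs, mul_one, div_lt_one h20]
        exact hw2
      refine ⟨s + w / (2 * s), ?_, ?_⟩
      · rw [IsUltrametricDist.norm_add_eq_max_of_norm_ne_norm hws.ne', max_eq_left hws.le, hs]
      · have e : 1 + y - (s + w / (2 * s)) ^ 2 = -(w ^ 2 / (2 * s) ^ 2) := by
          have : 1 + y = w + s ^ 2 := by rw [hw]; ring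
          rw [this]
          field_simp
          ring
        rw [e, norm_neg, norm_div, norm_pow, norm_pow, norm_mul, hs, mul_one]
        rw [div_le_iff₀ (by positivity)]
        calc ‖w‖ ^ 2 ≤ (‖(2 : E)‖ ^ 2 * r ^ (n + 1)) ^ 2 := by gcongr
          _ = ‖(2 : E)‖ ^ 2 * (r ^ (n + 1) * r ^ (n + 1)) * ‖(2 : E)‖ ^ 2 := by ring
          _ ≤ ‖(2 : E)‖ ^ 2 * (r ^ (n + 1) * r ^ 1) * ‖(2 : E)‖ ^ 2 := by
              gcongr ‖(2 : E)‖ ^ 2 * (r ^ (n + 1) * ?_) * ‖(2 : E)‖ ^ 2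
              exact pow_le_pow_of_le_one hr0 hr1.le (by omega)
          _ = ‖(2 : E)‖ ^ 2 * r ^ (n + 1 + 1) * ‖(2 : E)‖ ^ 2 := by ring
  have hcl : IsClosed ((fun x : E => x ^ 2) '' Metric.closedBall (0 : E) 1) :=
    ((isCompact_closedBall (0 : E) 1).image (continuous_pow 2)).isClosed
  have hmem : 1 + y ∈ (fun x : E => x ^ 2) '' Metric.closedBall (0 : E) 1 := by
    rw [← hcl.closure_eq, Metric.mem_closure_iff]
    intro ε hε
    have h4 : 0 < ‖(2 : E)‖ ^ 2 := by positivity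
    obtain ⟨n, hn⟩ := exists_pow_lt_of_lt_one (div_pos hε h4) hr1
    obtain ⟨s, hs, hsw⟩ := key n
    refine ⟨s ^ 2, ⟨s, mem_closedBall_zero_iff.2 hs.le, rfl⟩, ?_⟩
    rw [dist_eq_norm]
    calc ‖1 + y - s ^ 2‖ ≤ ‖(2 : E)‖ ^ 2 * r ^ (n + 1) := hsw
      _ ≤ ‖(2 : E)‖ ^ 2 * r ^ n := by
          gcongr ‖(2 : E)‖ ^ 2 * ?_
          exact pow_le_pow_of_le_one hr0 hr1.le (by omega)
      _ < ‖(2 : E)‖ ^ 2 * (ε / ‖(2 : E)‖ ^ 2) := by gcongr
      _ = ε := by field_simp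
  obtain ⟨s, -, hs⟩ := hmem
  have hs0 : s ≠ 0 := by
    rintro rfl
    have h1 : y = -1 := by
      have h3 : (0 : E) ^ 2 = 1 + y := hs
      linear_combination (-1) * h3
    rw [h1, norm_neg, norm_one] at hy
    nlinarith
  exact ⟨Units.mk0 s hs0, hs⟩

lemma Ob_cp [ProperSpace E] (h21 : ‖(2 : E)‖ < 1) : Cp (Ob E) := by
  intro x hx
  have hx' : ∀ n, ‖x (n + 1) - x n‖ ≤ ‖(2 : E)‖ ^ n := by
    intro n
    have := hx n
    rwa [← map_pow, Ob_le, norm_pow] at this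
  have hcau : CauchySeq x := by
    apply cauchySeq_of_le_geometric ‖(2 : E)‖ 1 h21
    intro n
    rw [dist_comm, dist_eq_norm, one_mul]
    exact hx' n
  obtain ⟨y, hy⟩ := cauchySeq_tendsto_of_complete hcau
  refine ⟨y, fun n => ?_⟩
  rw [← map_pow, Ob_le, norm_pow]
  have h1 : ∀ m, ‖x (n + m) - x n‖ ≤ ‖(2 : E)‖ ^ n := by
    intro m
    induction m with
    | zero =>
      rw [add_zero, sub_self, norm_zero]
      positivity
    | succ m ih =>
      have e : x (n + (m + 1)) - x n = (x (n + m + 1) - x (n + m)) + (x (n + m) - x n) := by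
        rw [← add_assoc]
        ring
      rw [e]
      refine (IsUltrametricDist.norm_add_le_max _ _).trans (max_le ((hx' (n + m)).trans ?_) ih)
      exact pow_le_pow_of_le_one (norm_nonneg _) h21.le (by omega)
  have h2 : Filter.Tendsto (fun m => ‖x (n + m) - x n‖) Filter.atTop (𝓝 ‖y - x n‖) := by
    have h3 : Filter.Tendsto (fun m => x (n + m)) Filter.atTop (𝓝 y) := by
      have := hy.comp (Filter.tendsto_add_atTop_nat n)
      refine this.congr fun m => ?_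
      simp only [Function.comp_apply, add_comm]
    exact (h3.sub_const _).norm
  exact le_of_tendsto' h2 h1

/-- local fields have the properties of `Lc` -/
theorem exists_lc [ProperSpace E] (h2 : (2 : E) ≠ 0) (h21 : ‖(2 : E)‖ < 1) :
    ∃ ϖ x₀ : Eˣ, Lc (Ob E) ϖ x₀ := by
  obtain ⟨ϖ, hϖ1, hϖ2⟩ := exists_ϖ (E := E)
  have _ : Fact (Nat.Prime 2) := ⟨Nat.prime_two⟩
  have hcast : ((2 : ℕ) : E) = 2 := Nat.cast_ofNat
  have hp2 : (Ob E).valuation ((2 : ℕ) : E) < 1 := by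
    rw [hcast, Ob_lt1]
    exact h21
  have hchar := charP_res (Ob E) Nat.prime_two hp2
  obtain ⟨γ, hγ⟩ := art_schreier (k := IsLocalRing.ResidueField (Ob E)) (p := 2) 1
  -- the class is not trivial
  have hnr : ∀ s : IsLocalRing.ResidueField (Ob E), s ^ 2 + s ≠ γ := by
    intro s hs
    have hsurj : Function.Surjective
        (fun y : IsLocalRing.ResidueField (Ob E) => y ^ 2 + y) := by
      intro x
      obtain ⟨n, y, e⟩ := hγ x
      rcases Nat.even_or_odd' n with ⟨m, rfl | rfl⟩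
      · refine ⟨y, ?_⟩
        have h3 : ((2 * m : ℕ) : IsLocalRing.ResidueField (Ob E)) = 0 := by
          rw [Nat.cast_mul, CharP.cast_eq_zero, zero_mul]
        rw [e, h3, zero_mul, zero_add, one_mul]
      · refine ⟨y + s, ?_⟩
        have h3 : ((2 * m + 1 : ℕ) : IsLocalRing.ResidueField (Ob E)) = 1 := by
          rw [Nat.cast_add, Nat.cast_mul, CharP.cast_eq_zero, zero_mul, zero_add, Nat.cast_one]
        rw [e, h3, one_mul, one_mul, ← hs]
        dsimp only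
        rw [add_pow_char]
        ring
    have hinj := Finite.injective_iff_surjective.2 hsurj
    have h3 : (0 : IsLocalRing.ResidueField (Ob E)) = 1 := by
      apply hinj
      dsimp only
      rw [zero_pow two_ne_zero, zero_add, one_pow]
      have h4 : ((2 : ℕ) : IsLocalRing.ResidueField (Ob E)) = 0 := CharP.cast_eq_zero _ 2
      rw [one_add_one_eq_two, ← Nat.cast_ofNat (n := 2), h4]
    exact zero_ne_one h3
  obtain ⟨g, hg, rfl⟩ := lift_res (Ob E) γ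
  have hg1 : (Ob E).valuation g = 1 := by
    refine valuation_eq_one_of (Ob E) ⟨g, hg⟩ ?_
    intro e
    apply hnr 0
    rw [e, zero_pow two_ne_zero, zero_add]
  have hg0 : g ≠ 0 := by
    rintro rfl
    rw [map_zero] at hg1
    exact zero_ne_one hg1
  refine ⟨ϖ, Units.mk0 g hg0, ⟨h2, Ob_lt1.2 h21, Ob_lt1.2 hϖ1, ?_, Ob_ar, ?_, ?_, hg1, ?_, ?_⟩⟩
  · intro x hx
    rw [Ob_le]
    exact hϖ2 x (Ob_lt1.1 hx)
  · intro a ha
    exact pf_of_finite (Ob E) Nat.prime_two hp2 ha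
  · intro y hy
    rw [← map_pow, Ob_lt, norm_pow] at hy
    exact hensel h2 h21 hy
  · intro z hz
    have hzO := ((Ob E).valuation_le_one_iff _).1 hz
    obtain ⟨n, y, e⟩ := hγ (IsLocalRing.residue (Ob E) ⟨z, hzO⟩)
    obtain ⟨s, hs, rfl⟩ := lift_res (Ob E) y
    refine ⟨s, ((Ob E).valuation_le_one_iff _).2 hs, ?_⟩
    rcases Nat.even_or_odd' n with ⟨m, rfl | rfl⟩
    · left
      have h3 : ((2 * m : ℕ) : IsLocalRing.ResidueField (Ob E)) = 0 := by
        rw [Nat.cast_mul, CharP.cast_eq_zero, zero_mul]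
      rw [h3, zero_mul, zero_add, one_mul] at e
      have h4 := residue_eq_zero_iff (Ob E) (⟨z, hzO⟩ - (⟨s, hs⟩ ^ 2 + ⟨s, hs⟩))
      rw [map_sub, e, map_add, map_pow, sub_self] at h4
      exact h4.1 rfl
    · right
      have h3 : ((2 * m + 1 : ℕ) : IsLocalRing.ResidueField (Ob E)) = 1 := by
        rw [Nat.cast_add, Nat.cast_mul, CharP.cast_eq_zero, zero_mul, zero_add, Nat.cast_one]
      rw [h3, one_mul, one_mul] at e
      have h4 := residue_eq_zero_iff (Ob E)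
        (⟨z, hzO⟩ - (⟨g, hg⟩ + (⟨s, hs⟩ ^ 2 + ⟨s, hs⟩)))
      rw [map_sub, e, map_add, map_add, map_pow, sub_self] at h4
      exact h4.1 rfl
  · intro s hs
    have hsO := ((Ob E).valuation_le_one_iff _).1 hs
    refine valuation_eq_one_of (Ob E) (⟨s, hsO⟩ ^ 2 + ⟨s, hsO⟩ - ⟨g, hg⟩) ?_
    rw [map_sub, map_add, map_pow, sub_ne_zero]
    exact hnr _

theorem finite_sc [ProperSpace E] {ϖ x₀ : Eˣ} (h : Lc (Ob E) ϖ x₀) : Finite (Sc E) := by
  have hϖ1 : ‖(ϖ : E)‖ < 1 := Ob_lt1.1 h.pv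
  have hϖ0 : 0 < ‖(ϖ : E)‖ := norm_pos_iff.2 ϖ.ne_zero
  have h20 : 0 < ‖(2 : E)‖ := norm_pos_iff.2 h.ne
  have hc : IsCompact (Metric.closedBall (0 : E) 1 ∩ {x : E | ‖(ϖ : E)‖ ≤ ‖x‖}) :=
    (isCompact_closedBall (0 : E) 1).inter_right (isClosed_le continuous_const continuous_norm)
  obtain ⟨t, ht, hcov⟩ := hc.elim_nhds_subcover
    (fun x => Metric.ball x (‖(2 : E)‖ ^ 2 * ‖x‖)) (fun x hx => Metric.ball_mem_nhds x (by
      have h1 : 0 < ‖x‖ := hϖ0.trans_le hx.2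
      positivity))
  have ht0 : ∀ x ∈ t, x ≠ 0 := by
    rintro x hx rfl
    have h1 := (ht 0 hx).2
    rw [Set.mem_setOf_eq, norm_zero] at h1
    exact absurd hϖ0 (not_lt.2 h1)
  refine Finite.of_surjective (fun x : t => cl (Units.mk0 x.1 (ht0 x.1 x.2))) ?_
  intro a
  obtain ⟨u, rfl⟩ := cl_surj a
  -- a representative of norm one or of norm `‖ϖ‖`
  obtain ⟨w, hw, hw1, hw2⟩ : ∃ w : Eˣ, cl w = cl u ∧ ‖(w : E)‖ ≤ 1 ∧ ‖(ϖ : E)‖ ≤ ‖(w : E)‖ := by
    obtain ⟨s, hs⟩ := h.par u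
    refine ⟨u / s ^ 2, by rw [map_div, cl_sq, div_one], ?_⟩
    have hs0 : ((Ob E).valuation (s : E)) ^ 2 ≠ 0 := pow_ne_zero _ (val_ne _ s)
    rw [← Ob_le1, ← Ob_le, Units.val_div_eq_div_val, Units.val_pow_eq_pow_val, map_div₀, map_pow]
    rcases hs with hs | hs
    · rw [hs, div_self hs0]
      exact ⟨le_rfl, h.pv.le⟩
    · rw [hs, mul_div_cancel_right₀ _ hs0]
      exact ⟨h.pv.le, le_rfl⟩
  obtain ⟨x, hx, hxw⟩ := Set.mem_iUnion₂.1
    (hcov (show (w : E) ∈ _ from ⟨mem_closedBall_zero_iff.2 hw1, hw2⟩))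
  refine ⟨⟨x, hx⟩, ?_⟩
  rw [← hw, eq_comm]
  apply h.close
  rw [← map_pow, ← map_mul, Ob_lt, norm_mul, norm_pow, Units.val_mk0, ← dist_eq_norm]
  exact hxw

lemma Ob_dn {k : Type} [Field k] {i : k →+* E} (hi : DenseRange i) : Dn (Ob E) i := by
  intro e d
  obtain ⟨c, hc⟩ := hi.exists_dist_lt e (norm_pos_iff.2 d.ne_zero)
  refine ⟨c, ?_⟩
  rw [Ob_lt, ← dist_eq_norm, dist_comm]
  exact hc

end

end Pool.Agent.Helper58.BS
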