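import Mathlib
import Pool.Agent.Helper58.BS.Nf

set_option autoImplicit false

/-! The place of a homomorphism to the square classes of a local field. -/

namespace Pool.Agent.Helper58.BS

open Pool.Agent.Y920.EP Pool.Agent.Helper58.EB Pool.Agent.Helper58.ET

/-- a place of `K` with values in `E` together with infinity which is `i` on the constants: its
valuation ring and the homomorphism of this ring to `E`, whose kernel is the maximal ideal -/
@[ext] structure KPlace {k K E : Type} [Field k] [Field K] [Field E] (j : k →+* K) (i : k →+* E) where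
  ring : ValuationSubring K
  hom : ring →+* E
  const : ∀ c : k, ∃ h : j c ∈ ring, hom ⟨j c, h⟩ = i c
  ker : ∀ x : ring, (x : K)⁻¹ ∉ ring → hom x = 0

/-- the homomorphism `φ` is given by the place -/
def KPlace.Gives {k K E : Type} [Field k] [Field K] [Field E] {j : k →+* K} {i : k →+* E}
    (P : KPlace j i) (φ : Kˣ →* Sc E) : Prop :=
  ∀ (u : Kˣ) (e : Eˣ) (hu : (u : K) ∈ P.ring), P.hom ⟨u, hu⟩ = e → φ u = cl e

section

variable {E : Type} [Field E] {O : ValuationSubring E} {ϖ x₀ : Eˣ}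
variable {k : Type} [Field k] {i : k →+* E}
variable {K : Type} [Field K] {j : k →+* K} {φ : Kˣ →* Sc E} {G : Eˣ}

lemma two_ne (h : Lc O ϖ x₀) (i : k →+* E) {F : Type} [Field F] (j : k →+* F) : (2 : F) ≠ 0 := by
  intro e
  have h1 : (2 : k) ≠ 0 := by
    intro e
    apply h.ne
    have := congrArg i e
    rwa [map_ofNat, map_zero] at this
  apply h1
  have : j 2 = 0 := by rw [map_ofNat, e]
  rwa [map_eq_zero] at this

lemma infinite_k (h : Lc O ϖ x₀) (i : k →+* E) : Infinite k := by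
  refine Infinite.of_injective (fun n : ℕ => (2 : k) ^ n) ?_
  intro m n hmn
  have h1 := congrArg (fun x => O.valuation (i x)) hmn
  simp only [map_pow, map_ofNat] at h1
  have h20 : 0 < O.valuation (2 : E) := zero_lt_iff.2 ((Valuation.ne_zero_iff _).2 h.ne)
  rcases lt_trichotomy m n with h2 | h2 | h2
  · exact absurd (pow_lt_pow_right_of_lt_one₀ h20 h.two h2) (by rw [h1]; exact lt_irrefl _)
  · exact h2
  · exact absurd (pow_lt_pow_right_of_lt_one₀ h20 h.two h2) (by rw [h1]; exact lt_irrefl _)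

/-- existence -/
theorem exists_place (h : Lc O ϖ x₀) (hG : (G : E) = 1 + 4 * x₀) (hd : Dn O i) (hcp : Cp O)
    [Finite (Sc E)] (hr : Rl i j φ) : ∃ P : KPlace j i, P.Gives φ := by
  obtain ⟨R, hk, j', ψ, hj', hr', hψ, hmin⟩ := hr.min h hG hd (two_ne h i j)
  have h2' := two_ne h i j'
  have _ := infinite_k h i
  have hinf : Infinite (IsLocalRing.ResidueField R) := Infinite.of_injective j' j'.injective
  obtain ⟨O₁, hS, ha⟩ := hr'.ring h hG hd h2' hmin
  obtain ⟨l, hl1, hl2⟩ := hr'.emb h hG hd hS ha hcp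
  refine ⟨⟨R, l.comp (IsLocalRing.residue R), fun c => ⟨hk c, ?_⟩, ?_⟩, ?_⟩
  · rw [RingHom.comp_apply, ← hj', hl1]
  · intro x hx
    rw [RingHom.comp_apply, map_eq_zero, residue_eq_zero_iff, EB.lt_one_iff]
    exact Or.inr hx
  · intro u e hu he
    change l (IsLocalRing.residue R ⟨u, hu⟩) = e at he
    have h1 : R.valuation (u : K) = 1 := by
      refine valuation_eq_one_of R ⟨u, hu⟩ ?_
      intro h0
      rw [h0, map_zero] at he
      exact e.ne_zero he.symm
    obtain ⟨w, hw, hw1⟩ := hψ u hu h1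
    rw [← hw1, hl2]
    congr 1
    ext
    rw [← he, ← hw]
    rfl

/-- values of a place, finite case -/
lemma KPlace.fin (P : KPlace j i) (hP : P.Gives φ) {f : K} (hf : f ∈ P.ring) {c : k} {e : Eˣ}
    (he : (e : E) = P.hom ⟨f, hf⟩ + i c) : ∃ u : Kˣ, (u : K) = f + j c ∧ φ u = cl e := by
  obtain ⟨hc, hc1⟩ := P.const c
  have h1 : f + j c ∈ P.ring := P.ring.add_mem _ _ hf hc
  have h2 : P.hom ⟨f + j c, h1⟩ = e := by
    have e1 : (⟨f + j c, h1⟩ : P.ring) = ⟨f, hf⟩ + ⟨j c, hc⟩ := rfl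
    rw [e1, map_add, hc1, he]
  have h3 : f + j c ≠ 0 := by
    intro h0
    apply e.ne_zero
    rw [← h2]
    have e1 : (⟨f + j c, h1⟩ : P.ring) = 0 := Subtype.ext h0
    rw [e1, map_zero]
  exact ⟨Units.mk0 _ h3, Units.val_mk0 _, hP _ e h1 h2⟩

/-- values of a place, infinite case -/
lemma KPlace.inf (P : KPlace j i) (hP : P.Gives φ) {f : Kˣ} (hf : (f : K) ∉ P.ring) (c : k) :
    ∃ u : Kˣ, (u : K) = f + j c ∧ φ u = φ f := by
  obtain ⟨hc, hc1⟩ := P.const c
  have hfi : (f : K)⁻¹ ∈ P.ring := (P.ring.mem_or_inv_mem f).resolve_left hf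
  have h0 : P.hom ⟨(f : K)⁻¹, hfi⟩ = 0 := by
    apply P.ker
    change ((f : K)⁻¹)⁻¹ ∉ P.ring
    rwa [inv_inv]
  have h1 : 1 + j c * (f : K)⁻¹ ∈ P.ring :=
    P.ring.add_mem _ _ P.ring.one_mem (P.ring.mul_mem _ _ hc hfi)
  have h2 : P.hom ⟨1 + j c * (f : K)⁻¹, h1⟩ = ((1 : Eˣ) : E) := by
    have e1 : (⟨1 + j c * (f : K)⁻¹, h1⟩ : P.ring) = 1 + ⟨j c, hc⟩ * ⟨(f : K)⁻¹, hfi⟩ := rfl
    rw [e1, map_add, map_mul, h0, mul_zero, add_zero, map_one, Units.val_one]
  have h3 : 1 + j c * (f : K)⁻¹ ≠ 0 := by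
    intro h0
    apply (1 : Eˣ).ne_zero
    rw [← h2]
    have e1 : (⟨1 + j c * (f : K)⁻¹, h1⟩ : P.ring) = 0 := Subtype.ext h0
    rw [e1, map_zero]
  have h4 := hP (Units.mk0 _ h3) 1 h1 h2
  refine ⟨f * Units.mk0 _ h3, ?_, by rw [map_mul, h4, map_one, mul_one]⟩
  have hf0 : (f : K) ≠ 0 := f.ne_zero
  rw [Units.val_mul, Units.val_mk0]
  field_simp

/-- the first place determines the second one -/
lemma KPlace.sub (h : Lc O ϖ x₀) (hG : (G : E) = 1 + 4 * x₀) (hd : Dn O i) {P Q : KPlace j i}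
    (hP : P.Gives φ) (hQ : Q.Gives φ) {f : K} (hf : f ∈ P.ring) :
    ∃ hf' : f ∈ Q.ring, Q.hom ⟨f, hf'⟩ = P.hom ⟨f, hf⟩ := by
  obtain ⟨a, ha⟩ : ∃ a, a = P.hom ⟨f, hf⟩ := ⟨_, rfl⟩
  have h20 : 0 < O.valuation (2 : E) ^ 2 :=
    pow_pos (zero_lt_iff.2 ((Valuation.ne_zero_iff _).2 h.ne)) 2
  have hv4 : O.valuation (2 : E) ^ 2 < 1 := pow_lt_one₀ zero_le h.two two_ne_zero
  -- constants for which `a + c` has a given class and is close to a given element
  have hap : ∀ t d : Eˣ, O.valuation (d : E) ≤ O.valuation (2 : E) ^ 2 * O.valuation (t : E) →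
      ∃ (c : k) (e : Eˣ), (e : E) = a + i c ∧ cl e = cl t ∧
        O.valuation ((e : E) - t) < O.valuation (d : E) := by
    intro t d hd'
    obtain ⟨c, hc⟩ := hd ((t : E) - a) d
    have e1 : i c - ((t : E) - a) = (a + i c) - t := by ring
    rw [e1] at hc
    have h1 : O.valuation (a + i c) = O.valuation (t : E) := by
      apply eq_of_close
      exact (hc.trans_le hd').trans (mul_lt_of_lt_one_left (val_pos O t) hv4)
    have h2 : a + i c ≠ 0 := by
      intro e
      rw [e, map_zero] at h1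
      exact val_ne O t h1.symm
    refine ⟨c, Units.mk0 _ h2, Units.val_mk0 _, ?_, by rw [Units.val_mk0]; exact hc⟩
    apply h.close
    rw [Units.val_mk0]
    exact hc.trans_le hd'
  have hfQ : f ∈ Q.ring := by
    by_contra hfQ
    have hf0 : f ≠ 0 := by
      rintro rfl
      exact hfQ Q.ring.zero_mem
    have hall : ∀ t : Eˣ, cl t = φ (Units.mk0 f hf0) := by
      intro t
      obtain ⟨c, e, he, het, -⟩ := hap t ((Units.mk0 2 h.ne) ^ 2 * t) (by
        rw [Units.val_mul, Units.val_pow_eq_pow_val, Units.val_mk0, map_mul, map_pow])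
      obtain ⟨u, hu, hu1⟩ := P.fin hP hf (c := c) (e := e) (by rw [he, ha])
      obtain ⟨v, hv, hv1⟩ := Q.inf hQ (f := Units.mk0 f hf0) (by rw [Units.val_mk0]; exact hfQ) c
      have huv : u = v := by
        ext
        rw [hu, hv, Units.val_mk0]
      rw [← het, ← hu1, huv, hv1]
    apply h.G_ne hG
    rw [hall G, ← hall 1, map_one]
  refine ⟨hfQ, ?_⟩
  by_contra hne
  rw [← ha] at hne
  obtain ⟨b, hb⟩ : ∃ b, b = Q.hom ⟨f, hfQ⟩ := ⟨_, rfl⟩
  rw [← hb] at hne
  obtain ⟨δ, hδ⟩ : ∃ δ : Eˣ, (δ : E) = b - a := ⟨Units.mk0 _ (sub_ne_zero.2 hne), Units.val_mk0 _⟩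
  -- an element with another class
  obtain ⟨y, hy⟩ : ∃ y : Eˣ, cl y ≠ cl δ := by
    by_contra hcon
    push Not at hcon
    apply h.G_ne hG
    rw [hcon G, ← hcon 1, map_one]
  obtain ⟨n, hn⟩ := Ar.lt (R := O) h.arch h.two ((Units.mk0 2 h.ne) ^ 2 * δ / y)
  obtain ⟨t, ht⟩ : ∃ t : Eˣ, t = y * ((Units.mk0 2 h.ne) ^ n) ^ 2 := ⟨_, rfl⟩
  have htc : cl t = cl y := by rw [ht, map_mul, cl_sq, mul_one]
  have htv : O.valuation (t : E) < O.valuation (2 : E) ^ 2 * O.valuation (δ : E) := by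
    have h1 := hn (n + n) (by omega)
    rw [Units.val_div_eq_div_val, Units.val_mul, Units.val_pow_eq_pow_val, Units.val_mk0,
      map_div₀, map_mul, map_pow, lt_div_iff₀ (val_pos O y)] at h1
    rw [ht, Units.val_mul, Units.val_pow_eq_pow_val, Units.val_pow_eq_pow_val, Units.val_mk0,
      map_mul, map_pow, map_pow, ← pow_mul, mul_two, mul_comm]
    exact h1
  obtain ⟨c, e, he, het, hed⟩ := hap t ((Units.mk0 2 h.ne) ^ 2 * t) (by
    rw [Units.val_mul, Units.val_pow_eq_pow_val, Units.val_mk0, map_mul, map_pow])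
  rw [Units.val_mul, Units.val_pow_eq_pow_val, Units.val_mk0, map_mul, map_pow] at hed
  have hev : O.valuation (e : E) < O.valuation (2 : E) ^ 2 * O.valuation (δ : E) := by
    have h1 : O.valuation (e : E) = O.valuation (t : E) :=
      eq_of_close (hed.trans (mul_lt_of_lt_one_left (val_pos O t) hv4))
    rw [h1]
    exact htv
  have hb1 : b + i c = δ + e := by
    rw [he, hδ]
    ring
  have h5 : O.valuation ((δ : E) + e) = O.valuation (δ : E) :=
    Valuation.map_add_eq_of_lt_left _ (hev.trans (mul_lt_of_lt_one_left (val_pos O δ) hv4))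
  have h6 : (δ : E) + e ≠ 0 := by
    intro e0
    rw [e0, map_zero] at h5
    exact val_ne O δ h5.symm
  have h7 : cl (Units.mk0 _ h6) = cl δ := by
    apply h.close
    rw [Units.val_mk0, add_sub_cancel_left]
    exact hev
  obtain ⟨u, hu, hu1⟩ := P.fin hP hf (c := c) (e := e) (by rw [he, ha])
  obtain ⟨v, hv, hv1⟩ := Q.fin hQ hfQ (c := c) (e := Units.mk0 _ h6)
    (by rw [Units.val_mk0, ← hb1, hb])
  have huv : u = v := by
    ext
    rw [hu, hv]
  apply hy
  rw [← htc, ← het, ← hu1, huv, hv1, h7]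

/-- uniqueness -/
theorem KPlace.uniq (h : Lc O ϖ x₀) (hG : (G : E) = 1 + 4 * x₀) (hd : Dn O i) {P Q : KPlace j i}
    (hP : P.Gives φ) (hQ : Q.Gives φ) : P = Q := by
  have hring : P.ring = Q.ring := by
    ext f
    exact ⟨fun hf => (KPlace.sub h hG hd hP hQ hf).1, fun hf => (KPlace.sub h hG hd hQ hP hf).1⟩
  have hhom : ∀ (f : K) (hf : f ∈ P.ring) (hf' : f ∈ Q.ring), P.hom ⟨f, hf⟩ = Q.hom ⟨f, hf'⟩ := by
    intro f hf hf'
    obtain ⟨hf'', e⟩ := KPlace.sub h hG hd hP hQ hf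
    exact e.symm
  obtain ⟨R, l, h1, h2⟩ := P
  obtain ⟨R', l', h1', h2'⟩ := Q
  dsimp only at hring hhom
  subst hring
  have : l = l' := by
    ext x
    exact hhom x.1 x.2 x.2
  subst this
  rfl

end

end Pool.Agent.Helper58.BS
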