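import Mathlib
import Pool.Agent.Helper58.BS.Top

set_option autoImplicit false

/-! The theorem for homomorphisms to the square classes. -/

namespace Pool.Agent.Helper58.BS

theorem base {E : Type} [NontriviallyNormedField E] [IsUltrametricDist E]
    [LocallyCompactSpace E] (h2 : (2 : E) ≠ 0) (h21 : ‖(2 : E)‖ < 1) {k : Type} [Field k]
    (i : k →+* E) (hi : DenseRange i) {K : Type} [Field K] (j : k →+* K) (φ : Kˣ →* Sc E)
    (hr : Rl i j φ) : ∃! P : KPlace j i, P.Gives φ := by
  have _ : ProperSpace E := ProperSpace.of_locallyCompactSpace E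
  obtain ⟨ϖ, x₀, h⟩ := exists_lc h2 h21
  have _ := finite_sc h
  have hG0 : (1 : E) + 4 * x₀ ≠ 0 := by
    have h1 := EB.val_one_add (Ob E) (x := 4 * (x₀ : E)) (by
      rw [map_mul, v4, h.x0, mul_one]
      exact pow_lt_one₀ zero_le h.two two_ne_zero)
    intro e
    rw [e, map_zero] at h1
    exact zero_ne_one h1
  have hG : ((Units.mk0 _ hG0 : Eˣ) : E) = 1 + 4 * x₀ := Units.val_mk0 _
  have hd := Ob_dn hi
  obtain ⟨P, hP⟩ := exists_place h hG hd (Ob_cp h21) hr
  exact ⟨P, hP, fun Q hQ => KPlace.uniq h hG hd hQ hP⟩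

end Pool.Agent.Helper58.BS
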