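import Mathlib
import Pool.Agent.Helper58.BS.Base

set_option autoImplicit false

/-! Homomorphisms of Galois groups. -/

namespace Pool.Agent.Helper58.BS

section

variable {E Ω : Type} [Field E] [Field Ω] [Algebra E Ω]

/-- quadratic characters are given by square roots -/
lemma kummer [IsGalois E Ω] {N H : Subgroup (Ω ≃ₐ[E] Ω)}
    (hH : IsClosed (H : Set (Ω ≃ₐ[E] Ω))) (h2 : ∀ σ ∈ N, ∀ τ ∈ N, σ ∉ H → τ ∉ H → σ * τ ∈ H) :
    ∃ y : Ω, y ≠ 0 ∧ ∀ σ ∈ N, (σ ∈ H → σ y = y) ∧ (σ ∉ H → σ y = -y) := by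
  by_cases hN : ∃ σ₀ ∈ N, σ₀ ∉ H
  swap
  · push Not at hN
    exact ⟨1, one_ne_zero, fun σ hσ => ⟨fun _ => map_one σ, fun h => absurd (hN σ hσ) h⟩⟩
  obtain ⟨σ₀, hσ₀, hσ₀H⟩ := hN
  have hfix := InfiniteGalois.fixingSubgroup_fixedField (k := E) (K := Ω) ⟨H, hH⟩
  obtain ⟨x, hx, hx1⟩ : ∃ x : Ω, (∀ τ ∈ H, τ x = x) ∧ σ₀ x ≠ x := by
    by_contra hcon
    push Not at hcon
    apply hσ₀H
    have h1 : σ₀ ∈ (IntermediateField.fixedField H).fixingSubgroup := by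
      rw [IntermediateField.mem_fixingSubgroup_iff]
      intro x hx
      exact hcon x fun τ hτ => (IntermediateField.mem_fixedField_iff H x).1 hx τ hτ
    have h2 : (IntermediateField.fixedField H).fixingSubgroup = H := hfix
    rwa [h2] at h1
  have hinv : σ₀⁻¹ ∉ H := fun h => hσ₀H ((Subgroup.inv_mem_iff H).1 h)
  refine ⟨x - σ₀ x, sub_ne_zero.2 (Ne.symm hx1), fun σ hσ => ⟨fun hσH => ?_, fun hσH => ?_⟩⟩
  · have h3 : σ₀⁻¹ * (σ * σ₀) ∈ H := by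
      refine h2 _ (inv_mem hσ₀) _ (mul_mem hσ hσ₀) hinv fun h => hσ₀H ?_
      exact (Subgroup.mul_mem_cancel_left H hσH).1 h
    have h4 : σ (σ₀ x) = σ₀ x := by
      have := congrArg σ₀ (hx _ h3)
      rw [AlgEquiv.mul_apply, AlgEquiv.mul_apply] at this
      rwa [← AlgEquiv.mul_apply σ₀ σ₀⁻¹, mul_inv_cancel, AlgEquiv.one_apply] at this
    rw [map_sub, hx σ hσH, h4]
  · have h3 : σ (σ₀ x) = x := hx _ (h2 σ hσ σ₀ hσ₀ hσH hσ₀H)
    have h4 : σ x = σ₀ x := by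
      have h5 := congrArg σ₀ (hx _ (h2 _ (inv_mem hσ₀) σ hσ hinv hσH))
      rw [AlgEquiv.mul_apply, ← AlgEquiv.mul_apply σ₀ σ₀⁻¹, mul_inv_cancel,
        AlgEquiv.one_apply] at h5
      exact h5
    rw [map_sub, h3, h4]
    ring

variable {K L : Type} [Field K] [Field L] [Algebra K L]

/-- the elements which fix an algebraic element form a closed subgroup -/
lemma closed_fix {ρ : (Ω ≃ₐ[E] Ω) →* (L ≃ₐ[K] L)} (hρ : Continuous ρ) {w : L}
    (hw : IsIntegral K w) : IsClosed {σ : Ω ≃ₐ[E] Ω | ρ σ w = w} := by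
  have hfin : FiniteDimensional K (IntermediateField.adjoin K {w}) :=
    IntermediateField.adjoin.finiteDimensional hw
  have h1 := (IntermediateField.adjoin K {w}).fixingSubgroup_isClosed
  have h2 : {σ : Ω ≃ₐ[E] Ω | ρ σ w = w} =
      ρ ⁻¹' ((IntermediateField.adjoin K {w}).fixingSubgroup : Set (L ≃ₐ[K] L)) := by
    ext σ
    rw [Set.mem_preimage, SetLike.mem_coe, IntermediateField.mem_fixingSubgroup_iff]
    constructor
    · intro h3 x hx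
      refine IntermediateField.adjoin_induction K (p := fun x _ => ρ σ x = x) ?_ ?_ ?_ ?_ ?_ hx
      · intro x hx
        rw [Set.mem_singleton_iff.1 hx]
        exact h3
      · intro x
        exact AlgEquiv.commutes _ x
      · intro x y _ _ h4 h5
        rw [map_add, h4, h5]
      · intro x _ h4
        rw [map_inv₀, h4]
      · intro x y _ _ h4 h5
        rw [map_mul, h4, h5]
    · intro h3
      exact h3 w (IntermediateField.mem_adjoin_simple_self K w)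
  rw [h2]
  exact h1.preimage hρ

/-- the homomorphism `ρ` changes the sign of a square root of `f` exactly if the argument changes
the sign of a square root of `e` -/
def Sg (ρ : (Ω ≃ₐ[E] Ω) →* (L ≃ₐ[K] L)) (f : K) (e : E) : Prop :=
  ∃ (r : L) (t : Ω), r ^ 2 = algebraMap K L f ∧ t ^ 2 = algebraMap E Ω e ∧
    ∀ σ : Ω ≃ₐ[E] Ω, (ρ σ r = r ∧ σ t = t) ∨ (ρ σ r = -r ∧ σ t = -t)

lemma sq_cases {F : Type} [Field F] {x y : F} (h : x ^ 2 = y ^ 2) : x = y ∨ x = -y :=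
  sq_eq_sq_iff_eq_or_eq_neg.1 h

lemma map_cases (τ : L ≃ₐ[K] L) {r : L} {f : K} (hr : r ^ 2 = algebraMap K L f) :
    τ r = r ∨ τ r = -r := by
  apply sq_cases
  rw [← map_pow, hr, AlgEquiv.commutes]

lemma neg_ne {F : Type} [Field F] (h2 : (2 : F) ≠ 0) {x : F} (hx : x ≠ 0) : -x ≠ x := by
  intro e
  apply mul_ne_zero h2 hx
  linear_combination (-1) * e

lemma root_ne {r : L} {f : K} (hf : f ≠ 0) (hr : r ^ 2 = algebraMap K L f) : r ≠ 0 := by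
  rintro rfl
  rw [zero_pow two_ne_zero, eq_comm, map_eq_zero] at hr
  exact hf hr

/-- the choice of the roots does not matter -/
lemma Sg.roots {ρ : (Ω ≃ₐ[E] Ω) →* (L ≃ₐ[K] L)} {f : K} {e : E} (h : Sg ρ f e) {r : L} {t : Ω}
    (hr : r ^ 2 = algebraMap K L f) (ht : t ^ 2 = algebraMap E Ω e) (σ : Ω ≃ₐ[E] Ω) :
    (ρ σ r = r ∧ σ t = t) ∨ (ρ σ r = -r ∧ σ t = -t) := by
  obtain ⟨r', t', hr', ht', h1⟩ := h
  have h2 := sq_cases (hr.trans hr'.symm)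
  have h3 := sq_cases (ht.trans ht'.symm)
  rcases h2 with rfl | rfl <;> rcases h3 with rfl | rfl <;> rcases h1 σ with ⟨h4, h5⟩ | ⟨h4, h5⟩ <;>
    simp only [map_neg, h4, h5, neg_neg, and_self, true_or, or_true]

lemma mem_of_fixed [IsGalois E Ω] {x : Ω} (h : ∀ σ : Ω ≃ₐ[E] Ω, σ x = x) :
    ∃ c : E, algebraMap E Ω c = x :=
  (InfiniteGalois.mem_range_algebraMap_iff_fixed x).2 h

/-- the second element is determined up to squares -/
lemma Sg.uniq [IsGalois E Ω] {ρ : (Ω ≃ₐ[E] Ω) →* (L ≃ₐ[K] L)} {f : K} (hf : f ≠ 0)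
    (hL2 : (2 : L) ≠ 0) {e e' : Eˣ} (h : Sg ρ f e) (h' : Sg ρ f e') : cl e = cl e' := by
  obtain ⟨r, t, hr, ht, h1⟩ := h
  obtain ⟨r', t', hr', ht', h1'⟩ := h'
  have hr0 := root_ne hf hr
  have ht0 := root_ne e.ne_zero ht
  have key : ∀ σ : Ω ≃ₐ[E] Ω, σ (t' / t) = t' / t := by
    intro σ
    have h2 := Sg.roots ⟨r', t', hr', ht', h1'⟩ hr ht' σ
    rw [map_div₀]
    rcases h1 σ with ⟨h3, h4⟩ | ⟨h3, h4⟩ <;> rcases h2 with ⟨h5, h6⟩ | ⟨h5, h6⟩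
    · rw [h4, h6]
    · exact absurd (h5.symm.trans h3) (neg_ne hL2 hr0)
    · exact absurd (h3.symm.trans h5) (neg_ne hL2 hr0)
    · rw [h4, h6, neg_div_neg_eq]
  obtain ⟨c, hc⟩ := mem_of_fixed key
  have h2 : (e' : E) = e * c ^ 2 := by
    apply (algebraMap E Ω).injective
    rw [map_mul, map_pow, hc, ← ht, ← ht']
    field_simp
  have hc0 : c ≠ 0 := by
    rintro rfl
    apply e'.ne_zero
    rw [h2]
    ring
  rw [cl_eq]
  exact ⟨Units.mk0 c hc0, Units.ext h2⟩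

lemma Sg.mul_sq {ρ : (Ω ≃ₐ[E] Ω) →* (L ≃ₐ[K] L)} {f : K} {e : Eˣ} (h : Sg ρ f e) (c : Eˣ) :
    Sg ρ f ((e * c ^ 2 : Eˣ) : E) := by
  obtain ⟨r, t, hr, ht, h1⟩ := h
  refine ⟨r, t * algebraMap E Ω c, hr, ?_, fun σ => ?_⟩
  · rw [mul_pow, ht, Units.val_mul, Units.val_pow_eq_pow_val, map_mul, map_pow]
  · rw [map_mul, AlgEquiv.commutes, ← neg_mul]
    rcases h1 σ with ⟨h2, h3⟩ | ⟨h2, h3⟩
    · exact Or.inl ⟨h2, by rw [h3]⟩
    · exact Or.inr ⟨h2, by rw [h3]⟩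

lemma Sg.of_cl {ρ : (Ω ≃ₐ[E] Ω) →* (L ≃ₐ[K] L)} {f : K} {e e' : Eˣ} (h : Sg ρ f e)
    (hc : cl e = cl e') : Sg ρ f e' := by
  obtain ⟨c, rfl⟩ := cl_eq.1 hc
  exact h.mul_sq c

lemma Sg.mul {ρ : (Ω ≃ₐ[E] Ω) →* (L ≃ₐ[K] L)} {f g : K} {e e' : E} (h : Sg ρ f e)
    (h' : Sg ρ g e') : Sg ρ (f * g) (e * e') := by
  obtain ⟨r, t, hr, ht, h1⟩ := h
  obtain ⟨r', t', hr', ht', h1'⟩ := h'
  refine ⟨r * r', t * t', ?_, ?_, fun σ => ?_⟩
  · rw [mul_pow, hr, hr', map_mul]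
  · rw [mul_pow, ht, ht', map_mul]
  · rw [map_mul, map_mul]
    rcases h1 σ with ⟨h2, h3⟩ | ⟨h2, h3⟩ <;> rcases h1' σ with ⟨h4, h5⟩ | ⟨h4, h5⟩ <;>
      rw [h2, h3, h4, h5] <;> simp

/-- existence -/
lemma exists_sg [IsGalois E Ω] {ρ : (Ω ≃ₐ[E] Ω) →* (L ≃ₐ[K] L)} (hρ : Continuous ρ)
    {f : K} (hf : f ≠ 0) (hL : ∃ r : L, r ^ 2 = algebraMap K L f) : ∃ e : Eˣ, Sg ρ f e := by
  obtain ⟨r, hr⟩ := hL
  have hr0 := root_ne hf hr
  have hint : IsIntegral K r := by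
    have : IsIntegral K (r ^ 2) := by rw [hr]; exact isIntegral_algebraMap
    exact IsIntegral.of_pow two_pos this
  let H : Subgroup (Ω ≃ₐ[E] Ω) :=
    { carrier := {σ | ρ σ r = r}
      mul_mem' := by
        intro σ τ hσ hτ
        change ρ (σ * τ) r = r
        rw [map_mul, AlgEquiv.mul_apply, hτ, hσ]
      one_mem' := by
        change ρ 1 r = r
        rw [map_one, AlgEquiv.one_apply]
      inv_mem' := by
        intro σ hσ
        change ρ σ⁻¹ r = r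
        have hσ' : ρ σ r = r := hσ
        conv_lhs => rw [← hσ']
        rw [← AlgEquiv.mul_apply, ← map_mul, inv_mul_cancel, map_one, AlgEquiv.one_apply] }
  have hmem : ∀ σ, σ ∈ H ↔ ρ σ r = r := fun σ => Iff.rfl
  obtain ⟨y, hy0, hy⟩ := kummer (N := ⊤) (H := H) (closed_fix hρ hint) (by
    intro σ _ τ _ hσ hτ
    rw [hmem] at hσ hτ ⊢
    rw [map_mul, AlgEquiv.mul_apply, (map_cases (ρ τ) hr).resolve_left hτ, map_neg,
      (map_cases (ρ σ) hr).resolve_left hσ, neg_neg])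
  have hy' : ∀ σ : Ω ≃ₐ[E] Ω, (ρ σ r = r ∧ σ y = y) ∨ (ρ σ r = -r ∧ σ y = -y) := by
    intro σ
    have h1 := hy σ (Subgroup.mem_top σ)
    by_cases hσ : ρ σ r = r
    · exact Or.inl ⟨hσ, h1.1 hσ⟩
    · exact Or.inr ⟨(map_cases (ρ σ) hr).resolve_left hσ, h1.2 hσ⟩
  obtain ⟨e, he⟩ := mem_of_fixed (x := y ^ 2) (fun σ => by
    rw [map_pow]
    rcases hy' σ with ⟨-, h1⟩ | ⟨-, h1⟩
    · rw [h1]
    · rw [h1, neg_sq])
  have he0 : e ≠ 0 := by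
    rintro rfl
    rw [map_zero, eq_comm] at he
    exact hy0 (pow_eq_zero_iff two_ne_zero |>.1 he)
  exact ⟨Units.mk0 e he0, r, y, hr, by rw [Units.val_mk0, he], hy'⟩

end

end Pool.Agent.Helper58.BS
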