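import Mathlib
import Pool.Agent.Helper58.BS.Gal

set_option autoImplicit false

/-! The relation of degree two for homomorphisms of Galois groups. -/

namespace Pool.Agent.Helper58.BS

section

variable {E Ω : Type} [Field E] [Field Ω] [Algebra E Ω]
variable {K L : Type} [Field K] [Field L] [Algebra K L]

/-- if `f + g = 1` then `b` is a norm from the field of the square roots of `a` -/
theorem norm_of_gal [IsGalois E Ω] {ρ : (Ω ≃ₐ[E] Ω) →* (L ≃ₐ[K] L)} (hρ : Continuous ρ)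
    (hE2 : (2 : E) ≠ 0) (hL2 : (2 : L) ≠ 0) {f g : K} (hf : f ≠ 0) (hg : g ≠ 0) (hfg : f + g = 1)
    (hL : ∀ r : L, (∃ f : K, r ^ 2 = algebraMap K L f) → ∃ w : L, w ^ 2 = 1 + r)
    {a b : Eˣ} (hfa : Sg ρ f a) (hgb : Sg ρ g b) : ∃ x y : E, x ^ 2 - (a : E) * y ^ 2 = b := by
  have hfa' := hfa
  obtain ⟨r, t, hr, ht, hrt⟩ := hfa
  have hr0 := root_ne hf hr
  have ht0 := root_ne a.ne_zero ht
  have hΩ2 : (2 : Ω) ≠ 0 := by
    rw [← map_ofNat (algebraMap E Ω) 2, Ne, map_eq_zero]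
    exact hE2
  by_cases hc : ∀ σ : Ω ≃ₐ[E] Ω, σ t = t
  · -- `a` is a square
    obtain ⟨c, hc⟩ := mem_of_fixed hc
    have hc0 : c ≠ 0 := by
      rintro rfl
      rw [map_zero] at hc
      exact ht0 hc.symm
    have hac : (a : E) = c ^ 2 := by
      apply (algebraMap E Ω).injective
      rw [← ht, map_pow, hc]
    refine ⟨(b + 1) / 2, (b - 1) / (2 * c), ?_⟩
    rw [hac]
    field_simp
    ring
  push Not at hc
  obtain ⟨τ, hτ⟩ := hc
  obtain ⟨hτr, hτt⟩ : ρ τ r = -r ∧ τ t = -t := (hrt τ).resolve_left fun h => hτ h.2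
  -- the roots
  obtain ⟨W, hW⟩ := hL r ⟨f, hr⟩
  obtain ⟨W', hW'⟩ := hL (-r) ⟨f, by rw [neg_sq]; exact hr⟩
  have hV : (W * W') ^ 2 = algebraMap K L g := by
    have e : g = 1 - f := by linear_combination hfg
    rw [mul_pow, hW, hW', e, map_sub, map_one, ← hr]
    ring
  have hV0 := root_ne hg hV
  have hW0 : W ≠ 0 := left_ne_zero_of_mul hV0
  have hW'0 : W' ≠ 0 := right_ne_zero_of_mul hV0
  obtain ⟨s, hs⟩ : ∃ s : Ω, s ^ 2 = algebraMap E Ω b := by
    obtain ⟨-, s, -, hs, -⟩ := hgb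
    exact ⟨s, hs⟩
  have hVs := hgb.roots hV hs
  have hs0 := root_ne b.ne_zero hs
  have hint : IsIntegral K W := by
    have h1 : IsIntegral K r := by
      have : IsIntegral K (r ^ 2) := by rw [hr]; exact isIntegral_algebraMap
      exact IsIntegral.of_pow two_pos this
    have : IsIntegral K (W ^ 2) := by rw [hW]; exact isIntegral_one.add h1
    exact IsIntegral.of_pow two_pos this
  -- the subgroups
  let N : Subgroup (Ω ≃ₐ[E] Ω) :=
    { carrier := {σ | σ t = t}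
      mul_mem' := by
        intro σ υ hσ hυ
        change (σ * υ) t = t
        rw [AlgEquiv.mul_apply, hυ, hσ]
      one_mem' := rfl
      inv_mem' := by
        intro σ hσ
        change σ⁻¹ t = t
        have hσ' : σ t = t := hσ
        conv_lhs => rw [← hσ']
        rw [← AlgEquiv.mul_apply, inv_mul_cancel, AlgEquiv.one_apply] }
  have hN : ∀ σ, σ ∈ N ↔ σ t = t := fun σ => Iff.rfl
  let H : Subgroup (Ω ≃ₐ[E] Ω) :=
    { carrier := {σ | ρ σ W = W}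
      mul_mem' := by
        intro σ τ hσ hτ
        change ρ (σ * τ) W = W
        rw [map_mul, AlgEquiv.mul_apply, hτ, hσ]
      one_mem' := by
        change ρ 1 W = W
        rw [map_one, AlgEquiv.one_apply]
      inv_mem' := by
        intro σ hσ
        change ρ σ⁻¹ W = W
        have hσ' : ρ σ W = W := hσ
        conv_lhs => rw [← hσ']
        rw [← AlgEquiv.mul_apply, ← map_mul, inv_mul_cancel, map_one, AlgEquiv.one_apply] }
  have hH : ∀ σ, σ ∈ H ↔ ρ σ W = W := fun σ => Iff.rfl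
  have hNr : ∀ σ ∈ N, ρ σ r = r := by
    intro σ hσ
    rcases hrt σ with ⟨h1, -⟩ | ⟨-, h2⟩
    · exact h1
    · exact absurd (h2.symm.trans ((hN σ).1 hσ)) (neg_ne hΩ2 ht0)
  have hNW : ∀ σ ∈ N, ρ σ W = W ∨ ρ σ W = -W := by
    intro σ hσ
    apply sq_cases
    rw [← map_pow, hW, map_add, map_one, hNr σ hσ]
  obtain ⟨y, hy0, hy⟩ := kummer (N := N) (H := H) (closed_fix hρ hint) (by
    intro σ hσN υ hυN hσ hυ
    rw [hH] at hσ hυ ⊢
    rw [map_mul, AlgEquiv.mul_apply, (hNW υ hυN).resolve_left hυ, map_neg,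
      (hNW σ hσN).resolve_left hσ, neg_neg])
  -- signs
  have hε : ∀ σ ∈ N, ∃ ε : ℤˣ, ρ σ W = ((ε : ℤ) : L) * W ∧ σ y = ((ε : ℤ) : Ω) * y := by
    intro σ hσ
    by_cases h1 : ρ σ W = W
    · exact ⟨1, by rw [h1]; simp, by rw [(hy σ hσ).1 h1]; simp⟩
    · refine ⟨-1, by rw [(hNW σ hσ).resolve_left h1]; simp, ?_⟩
      rw [(hy σ hσ).2 h1]
      simp
  obtain ⟨η, hη⟩ : ∃ η : ℤˣ, ρ τ W = ((η : ℤ) : L) * W' := by
    have h1 : ρ τ W = W' ∨ ρ τ W = -W' := by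
      apply sq_cases
      rw [← map_pow, hW, hW', map_add, map_one, hτr]
    rcases h1 with h1 | h1
    · exact ⟨1, by rw [h1]; simp⟩
    · exact ⟨-1, by rw [h1]; simp⟩
  have hint' : ∀ (σ : L ≃ₐ[K] L) (n : ℤ), σ (n : L) = n := fun σ n => map_intCast σ n
  have hintΩ : ∀ (σ : Ω ≃ₐ[E] Ω) (n : ℤ), σ (n : Ω) = n := fun σ n => map_intCast σ n
  have hunit : ∀ ε : ℤˣ, ((ε : ℤ) : L) * ((ε : ℤ) : L) = 1 := by
    intro ε
    rw [← Int.cast_mul, ← Units.val_mul, Int.units_mul_self]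
    simp
  -- the twisted sum
  have hθN : ∀ σ ∈ N, ∃ ε : ℤˣ, ρ σ (W * W') = ((ε : ℤ) : L) * (W * W') ∧
      σ (y * τ y) = ((ε : ℤ) : Ω) * (y * τ y) := by
    intro σ hσ
    obtain ⟨ε, h1, h2⟩ := hε σ hσ
    have hσ' : τ⁻¹ * σ * τ ∈ N := by
      rw [hN, AlgEquiv.mul_apply, AlgEquiv.mul_apply, hτt, map_neg, (hN σ).1 hσ, map_neg]
      have : τ⁻¹ (τ t) = t := by rw [← AlgEquiv.mul_apply, inv_mul_cancel, AlgEquiv.one_apply]
      rw [hτt, map_neg] at this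
      exact this
    obtain ⟨ε', h1', h2'⟩ := hε _ hσ'
    have e1 : τ * (τ⁻¹ * σ * τ) = σ * τ := by group
    have h3 : σ (τ y) = ((ε' : ℤ) : Ω) * τ y := by
      have := congrArg τ h2'
      rw [map_mul, hintΩ, ← AlgEquiv.mul_apply τ, e1, AlgEquiv.mul_apply] at this
      exact this
    have h4 : ρ σ W' = ((ε' : ℤ) : L) * W' := by
      have := congrArg (ρ τ) h1'
      rw [map_mul (ρ τ), hint', ← AlgEquiv.mul_apply (ρ τ), ← map_mul ρ, e1, map_mul ρ,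
        AlgEquiv.mul_apply, hη, map_mul (ρ σ), hint'] at this
      have h5 : ((η : ℤ) : L) ≠ 0 := left_ne_zero_of_mul (a := ((η : ℤ) : L)) (b := ((η : ℤ) : L))
        (by rw [hunit]; exact one_ne_zero)
      apply mul_left_cancel₀ h5
      rw [this]
      ring
    refine ⟨ε * ε', ?_, ?_⟩
    · rw [map_mul, h1, h4]
      push_cast
      ring
    · rw [map_mul, h2, h3]
      push_cast
      ring
  have hττ : τ * τ ∈ N := by
    rw [hN, AlgEquiv.mul_apply, hτt, map_neg, hτt, neg_neg]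
  have hθτ : ∃ ε : ℤˣ, ρ τ (W * W') = ((ε : ℤ) : L) * (W * W') ∧
      τ (y * τ y) = ((ε : ℤ) : Ω) * (y * τ y) := by
    obtain ⟨ε, h1, h2⟩ := hε _ hττ
    rw [map_mul ρ, AlgEquiv.mul_apply, hη, map_mul (ρ τ), hint'] at h1
    rw [AlgEquiv.mul_apply] at h2
    refine ⟨ε, ?_, ?_⟩
    · rw [map_mul (ρ τ), hη]
      linear_combination W' * h1
    · rw [map_mul τ, h2]
      ring
  have hθ : ∀ σ : Ω ≃ₐ[E] Ω, ∃ ε : ℤˣ, ρ σ (W * W') = ((ε : ℤ) : L) * (W * W') ∧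
      σ (y * τ y) = ((ε : ℤ) : Ω) * (y * τ y) := by
    intro σ
    by_cases hσ : σ ∈ N
    · exact hθN σ hσ
    have hσt : σ t = -t := by
      rcases hrt σ with ⟨-, h1⟩ | ⟨-, h1⟩
      · exact absurd h1 hσ
      · exact h1
    have h1 : τ⁻¹ * σ ∈ N := by
      rw [hN, AlgEquiv.mul_apply, hσt, map_neg]
      have : τ⁻¹ (τ t) = t := by rw [← AlgEquiv.mul_apply, inv_mul_cancel, AlgEquiv.one_apply]
      rw [hτt, map_neg] at this
      exact this
    obtain ⟨ε, h2, h3⟩ := hθN _ h1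
    obtain ⟨ε', h4, h5⟩ := hθτ
    have e1 : σ = τ * (τ⁻¹ * σ) := by group
    refine ⟨ε * ε', ?_, ?_⟩
    · rw [e1, map_mul ρ, AlgEquiv.mul_apply, h2, map_mul (ρ τ), hint', h4]
      push_cast
      ring
    · rw [e1, AlgEquiv.mul_apply, h3, map_mul τ, hintΩ, h5]
      push_cast
      ring
  have hτy0 : τ y ≠ 0 := by rwa [Ne, EmbeddingLike.map_eq_zero_iff]
  -- the quotient with `s` is a constant
  have hcs : ∀ σ : Ω ≃ₐ[E] Ω, σ (y * τ y / s) = y * τ y / s := by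
    intro σ
    obtain ⟨ε, h1, h2⟩ := hθ σ
    rw [map_div₀, h2]
    rcases Int.units_eq_one_or ε with rfl | rfl
    · rcases hVs σ with ⟨-, h3⟩ | ⟨h3, -⟩
      · rw [h3]
        simp
      · exfalso
        rw [h3] at h1
        simp only [Units.val_one, Int.cast_one, one_mul] at h1
        exact neg_ne hL2 hV0 h1
    · rcases hVs σ with ⟨h3, -⟩ | ⟨-, h3⟩
      · exfalso
        rw [h3] at h1
        simp only [Units.val_neg, Units.val_one, Int.cast_neg, Int.cast_one, neg_mul, one_mul] at h1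
        exact neg_ne hL2 hV0 h1.symm
      · rw [h3]
        simp
  obtain ⟨c, hc⟩ := mem_of_fixed hcs
  have hc0 : c ≠ 0 := by
    rintro rfl
    rw [map_zero, eq_comm] at hc
    exact div_ne_zero (mul_ne_zero hy0 hτy0) hs0 hc
  have hys : y * τ y = algebraMap E Ω c * s := by
    rw [hc]
    field_simp
  -- the norm
  have hyy : ∀ σ ∈ N, σ (y ^ 2) = y ^ 2 := by
    intro σ hσ
    obtain ⟨ε, -, h2⟩ := hε σ hσ
    rw [map_pow, h2, mul_pow]
    rcases Int.units_eq_one_or ε with rfl | rfl <;> simp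
  have hτyy : ∀ σ ∈ N, σ (τ (y ^ 2)) = τ (y ^ 2) := by
    intro σ hσ
    have hσ' : τ⁻¹ * σ * τ ∈ N := by
      rw [hN, AlgEquiv.mul_apply, AlgEquiv.mul_apply, hτt, map_neg, (hN σ).1 hσ, map_neg]
      have : τ⁻¹ (τ t) = t := by rw [← AlgEquiv.mul_apply, inv_mul_cancel, AlgEquiv.one_apply]
      rw [hτt, map_neg] at this
      exact this
    have e1 : τ * (τ⁻¹ * σ * τ) = σ * τ := by group
    have := congrArg τ (hyy _ hσ')
    rwa [← AlgEquiv.mul_apply, e1, AlgEquiv.mul_apply] at this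
  have hττy : τ (τ (y ^ 2)) = y ^ 2 := by
    rw [← AlgEquiv.mul_apply]
    exact hyy _ hττ
  have hdec : ∀ σ : Ω ≃ₐ[E] Ω, (σ t = t ∧ σ (y ^ 2) = y ^ 2 ∧ σ (τ (y ^ 2)) = τ (y ^ 2)) ∨
      (σ t = -t ∧ σ (y ^ 2) = τ (y ^ 2) ∧ σ (τ (y ^ 2)) = y ^ 2) := by
    intro σ
    by_cases hσ : σ ∈ N
    · exact Or.inl ⟨hσ, hyy σ hσ, hτyy σ hσ⟩
    right
    have hσt : σ t = -t := by
      rcases hrt σ with ⟨-, h1⟩ | ⟨-, h1⟩
      · exact absurd h1 hσ
      · exact h1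
    have h1 : τ⁻¹ * σ ∈ N := by
      rw [hN, AlgEquiv.mul_apply, hσt, map_neg]
      have : τ⁻¹ (τ t) = t := by rw [← AlgEquiv.mul_apply, inv_mul_cancel, AlgEquiv.one_apply]
      rw [hτt, map_neg] at this
      exact this
    have e1 : σ = τ * (τ⁻¹ * σ) := by group
    refine ⟨hσt, ?_, ?_⟩
    · rw [e1, AlgEquiv.mul_apply, hyy _ h1]
    · rw [e1, AlgEquiv.mul_apply, hτyy _ h1, hττy]
  obtain ⟨x₁, hx₁⟩ := mem_of_fixed (x := (y ^ 2 + τ (y ^ 2)) / 2) (fun σ => by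
    rw [map_div₀, map_add, map_ofNat]
    rcases hdec σ with ⟨-, h1, h2⟩ | ⟨-, h1, h2⟩
    · rw [h1, h2]
    · rw [h1, h2, add_comm])
  obtain ⟨y₁, hy₁⟩ := mem_of_fixed (x := (y ^ 2 - τ (y ^ 2)) / (2 * t)) (fun σ => by
    rw [map_div₀, map_sub, map_mul, map_ofNat]
    rcases hdec σ with ⟨h0, h1, h2⟩ | ⟨h0, h1, h2⟩
    · rw [h0, h1, h2]
    · rw [h0, h1, h2]
      field_simp
      ring)
  refine ⟨x₁ / c, y₁ / c, ?_⟩
  apply (algebraMap E Ω).injective
  have hc0' : algebraMap E Ω c ≠ 0 := by rwa [Ne, map_eq_zero]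
  simp only [map_sub, map_mul, map_pow, map_div₀]
  rw [hx₁, hy₁, ← ht, ← hs]
  have h6 : s = y * τ y / algebraMap E Ω c := by
    rw [hys]
    field_simp
  rw [h6, map_pow]
  field_simp
  ring

end

end Pool.Agent.Helper58.BS
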