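import Mathlib
import Pool.Agent.Helper58.BS.Dih

set_option autoImplicit false

/-! The theorem for homomorphisms of Galois groups. -/

namespace Pool.Agent.Helper58.BS

section

variable {E Ω : Type} [Field E] [Field Ω] [Algebra E Ω]
variable {K L : Type} [Field K] [Field L] [Algebra K L]

/-- the homomorphism to the square classes of a homomorphism of Galois groups -/
theorem exists_phi [IsGalois E Ω] {ρ : (Ω ≃ₐ[E] Ω) →* (L ≃ₐ[K] L)} (hρ : Continuous ρ)
    (hL2 : (2 : L) ≠ 0) (hL : ∀ f : K, ∃ r : L, r ^ 2 = algebraMap K L f) :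
    ∃ φ : Kˣ →* Sc E, ∀ (f : Kˣ) (e : Eˣ), φ f = cl e ↔ Sg ρ (f : K) (e : E) := by
  choose m hm using fun f : Kˣ => exists_sg hρ f.ne_zero (hL (f : K))
  have key : ∀ (f : Kˣ) (e : Eˣ), Sg ρ (f : K) (e : E) → cl (m f) = cl e := fun f e he =>
    (hm f).uniq f.ne_zero hL2 he
  refine ⟨MonoidHom.mk' (fun f => cl (m f)) fun f g => ?_, fun f e => ⟨fun he => ?_, fun he => ?_⟩⟩
  · rw [← map_mul]
    apply key
    rw [Units.val_mul, Units.val_mul]
    exact (hm f).mul (hm g)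
  · exact (hm f).of_cl he
  · exact key f e he

/-- the homomorphism of Galois groups is given by the place -/
def KPlace.Galois {k : Type} [Field k] {j : k →+* K} {i : k →+* E} (P : KPlace j i)
    (ρ : (Ω ≃ₐ[E] Ω) →* (L ≃ₐ[K] L)) : Prop :=
  ∀ f : P.ring, P.hom f ≠ 0 → Sg ρ (f : K) (P.hom f)

end

theorem gal {E : Type} [NontriviallyNormedField E] [IsUltrametricDist E]
    [LocallyCompactSpace E] (h2 : (2 : E) ≠ 0) (h21 : ‖(2 : E)‖ < 1) {Ω : Type} [Field Ω]
    [Algebra E Ω] [IsGalois E Ω] {k : Type} [Field k]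
    (i : k →+* E) (hi : DenseRange i) {K : Type} [Field K] (j : k →+* K) {L : Type} [Field L]
    [Algebra K L] (hL : ∀ f : K, ∃ r : L, r ^ 2 = algebraMap K L f)
    (hL1 : ∀ r : L, (∃ f : K, r ^ 2 = algebraMap K L f) → ∃ w : L, w ^ 2 = 1 + r)
    (ρ : (Ω ≃ₐ[E] Ω) →* (L ≃ₐ[K] L)) (hρ : Continuous ρ)
    (hk : ∀ c : k, c ≠ 0 → Sg ρ (j c) (i c)) : ∃! P : KPlace j i, P.Galois ρ := by
  have hk2 : (2 : k) ≠ 0 := by
    intro e
    apply h2
    have := congrArg i e
    rwa [map_ofNat, map_zero] at this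
  have hL2 : (2 : L) ≠ 0 := by
    rw [← map_ofNat ((algebraMap K L).comp j) 2, Ne, map_eq_zero]
    exact hk2
  obtain ⟨φ, hφ⟩ := exists_phi hρ hL2 hL
  have hr : Rl i j φ := by
    refine ⟨fun c => ?_, fun f g hfg => ?_⟩
    · rw [hφ]
      exact hk c c.ne_zero
    · obtain ⟨a, ha⟩ := cl_surj (φ f)
      obtain ⟨b, hb⟩ := cl_surj (φ g)
      rw [← ha, ← hb, mem_Nn]
      exact norm_of_gal hρ h2 hL2 f.ne_zero g.ne_zero hfg hL1 ((hφ f a).1 ha.symm)
        ((hφ g b).1 hb.symm)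
  obtain ⟨P, hP, hPu⟩ := base h2 h21 i hi j φ hr
  have hiff : ∀ Q : KPlace j i, Q.Gives φ ↔ Q.Galois ρ := by
    intro Q
    constructor
    · intro hQ f hf
      have hf0 : (f : K) ≠ 0 := by
        intro e
        apply hf
        have : f = 0 := Subtype.ext e
        rw [this, map_zero]
      exact (hφ (Units.mk0 _ hf0) (Units.mk0 _ hf)).1 (hQ _ _ f.2 rfl)
    · intro hQ u e hu he
      rw [hφ]
      have := hQ ⟨u, hu⟩ (by rw [he]; exact e.ne_zero)
      rwa [he] at this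
  exact ⟨P, (hiff P).1 hP, fun Q hQ => hPu Q ((hiff Q).2 hQ)⟩

end Pool.Agent.Helper58.BS
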